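import Pool.Agent.Lib.MP_abd955_pr.Genus

/-! Walks along a cycle; plane maps with half-edges and the removal of an edge. -/

namespace Pool.Agent.Lib.MP_b9d600_co

open Equiv Equiv.Perm Finset Relation Pool.Agent.Lib.MP_abd955_pr

set_option linter.unusedSectionVars false

variable {D : Type} [DecidableEq D] [Fintype D]

/-- `b` is reached from `a` by steps of `φ` that do not enter `q` -/
def Rc (φ : Perm D) (q : D) : D → D → Prop := TransGen fun a b => b = φ a ∧ b ≠ q

variable {φ φ' σ β : Perm D} {q z a b x : D}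

lemma Rc.ne (h : Rc φ q a b) : b ≠ q := by
  cases h with
  | single h => exact h.2
  | tail _ h => exact h.2

lemma Rc.one (h : φ a ≠ q) : Rc φ q a (φ a) := TransGen.single ⟨rfl, h⟩

lemma Rc.step (h : Rc φ q a b) (h' : φ b ≠ q) : Rc φ q a (φ b) := TransGen.tail h ⟨rfl, h'⟩

lemma Rc.head (h : Rc φ q a b) : φ a ≠ q ∧ (b = φ a ∨ Rc φ q (φ a) b) := by
  obtain ⟨c, ⟨rfl, h1⟩, h2⟩ := TransGen.head'_iff.1 h
  exact ⟨h1, reflTransGen_iff_eq_or_transGen.1 h2⟩

lemma Rc.cons (h : φ a ≠ q) (h' : Rc φ q (φ a) b) : Rc φ q a b := TransGen.head ⟨rfl, h⟩ h'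

lemma Rc.back (h : Rc φ q a (φ b)) : b = a ∨ Rc φ q a b := by
  obtain ⟨c, h1, h2, -⟩ := TransGen.tail'_iff.1 h
  obtain rfl := φ.injective h2
  exact reflTransGen_iff_eq_or_transGen.1 h1

lemma Rc.sc (h : Rc φ q a b) : φ.SameCycle a b := by
  induction h with
  | single h => rw [h.1]; exact sc_step _ _
  | tail _ h ih => rw [h.1]; exact ih.trans (sc_step _ _)

lemma Rc.irrefl (e : φ.SameCycle q a) : ¬Rc φ q a a := fun h => by
  refine (sc_ind (P := fun b => Rc φ q a b ∧ Rc φ q b a) e.symm ⟨h, h⟩ ?_).1.ne rfl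
  rintro b ⟨h1, h2⟩
  obtain ⟨h3, h4 | h4⟩ := h2.head
  · exact ⟨h1.step h3, h4 ▸ h⟩
  · exact ⟨h1.step h3, h4⟩

lemma rc_base (e : φ.SameCycle q a) : a = q ∨ Rc φ q q a := by
  refine sc_ind (P := fun a => a = q ∨ Rc φ q q a) e (Or.inl rfl) fun b h => ?_
  by_cases h1 : φ b = q
  · exact Or.inl h1
  · rcases h with rfl | h
    exacts [Or.inr (Rc.one h1), Or.inr (h.step h1)]

lemma rc_total (e : φ.SameCycle q a) (e' : φ.SameCycle q b) :
    a = b ∨ Rc φ q a b ∨ Rc φ q b a := by
  have h0 : a = q ∨ Rc φ q a q ∨ Rc φ q q a := (rc_base e).imp_right Or.inr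
  refine sc_ind (P := fun b => a = b ∨ Rc φ q a b ∨ Rc φ q b a) e' h0 fun b h => ?_
  by_cases h1 : φ b = q
  · rw [h1]; exact h0
  · rcases h with rfl | h | h
    exacts [Or.inr (Or.inl (Rc.one h1)), Or.inr (Or.inl (h.step h1)), h.head.2.imp_right Or.inr]

lemma Rc.transfer (P Bad : D → Prop)
    (h1 : ∀ a, P a → φ a ≠ q → (φ' a = φ a ∧ φ a ≠ z ∧ P (φ a)) ∨ Bad (φ a))
    (h2 : ∀ a, Bad a → φ a ≠ q → Bad (φ a)) (h : Rc φ q a b) (ha : P a) (hb : ¬Bad b) :
    Rc φ' z a b := by
  suffices (Rc φ' z a b ∧ P b) ∨ Bad b from (this.resolve_right hb).1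
  clear hb
  induction h with
  | single h =>
    obtain ⟨rfl, h⟩ := h
    exact (h1 a ha h).imp_left fun e => ⟨TransGen.single ⟨e.1.symm, e.2.1⟩, e.2.2⟩
  | tail _ h ih =>
    obtain ⟨rfl, h⟩ := h
    rcases ih with ih | ih
    · exact (h1 _ ih.2 h).imp_left fun e => ⟨TransGen.tail ih.1 ⟨e.1.symm, e.2.1⟩, e.2.2⟩
    · exact Or.inr (h2 _ ih h)

/-- equality in the genus inequality -/
def Pl (σ β : Perm D) : Prop :=
  2 * cnt (sc (σ * β)) univ + 2 * cnt (sc σ) univ =
    (univ.filter fun z => β z ≠ z).card + 4 * cnt (conn β σ) univ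

/-- `γ` is the involution `β` with the pair of `x` cut into two fixed points -/
structure Cut (σ β γ : Perm D) (x : D) : Prop where
  fx : γ x = x
  fp : γ (β x) = β x
  eq : ∀ z, z ≠ x → z ≠ β x → γ z = β z
  inv : ∀ z, γ (γ z) = z
  pl : Pl σ γ
  join : IsJoin (conn γ σ) (conn β σ) x (β x)
  br : (σ * β).SameCycle x (β x) → ¬conn γ σ x (β x) ∧
    IsJoin (sc (σ * γ)) (sc (σ * β)) (σ x) (σ (β x))
  nb : ¬(σ * β).SameCycle x (β x) → conn γ σ x (β x) ∧
    ∀ a b, (σ * β).SameCycle a b → (σ * γ).SameCycle a b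

theorem exists_cut (ha : ∀ z, β (β z) = z) (hp : Pl σ β) (hne : β x ≠ x) : ∃ γ, Cut σ β γ x := by
  set y := β x with hy
  have hay : β y = x := ha x
  set a' := β * swap x y with ha'
  have a1 : a' x = x := by simp [ha', hay]
  have a2 : a' y = y := by simp [ha', hy]
  have a3 : ∀ z, z ≠ x → z ≠ y → a' z = β z := fun z h1 h2 => by
    simp [ha', swap_apply_of_ne_of_ne h1 h2]
  have hinv : ∀ z, a' (a' z) = z := by
    intro z
    by_cases h1 : z = x
    · rw [h1, a1, a1]
    by_cases h2 : z = y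
    · rw [h2, a2, a2]
    rw [a3 z h1 h2, a3 _ (fun e => h2 (β.injective (e.trans hay.symm)))
      (fun e => h1 (β.injective e))]
    exact ha z
  have hcard : (univ.filter fun z => a' z ≠ z).card + 2 = (univ.filter fun z => β z ≠ z).card := by
    have : univ.filter (fun z => β z ≠ z) =
        insert x (insert y (univ.filter fun z => a' z ≠ z)) := by
      ext z
      simp only [mem_filter, mem_insert]
      by_cases h1 : z = x
      · simp [h1, ← hy, hne]
      by_cases h2 : z = y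
      · simp [h2, hay, hne.symm]
      simp [h1, h2, a3 z h1 h2]
    rw [this, card_insert_of_notMem, card_insert_of_notMem]
    · simp [a2]
    · simp [a1, hne.symm]
  have h1 := genus σ univ (fun _ _ => mem_univ _) _ a' (fun z _ => ⟨mem_univ _, hinv z⟩) rfl
  have hσ : σ * a' = swap (σ x) (σ y) * (σ * β) := by
    have h2 : β * swap x y = swap x y * β := by
      rw [mul_swap_eq_swap_mul, ← hy, hay, swap_comm]
    rw [ha', h2, ← mul_assoc, ← mul_assoc, swap_apply_apply, inv_mul_cancel_right]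
  have hj : IsJoin (conn a' σ) (conn β σ) x y := by
    have hle : ∀ {p q}, conn a' σ p q → conn β σ p q := by
      intro p q e
      refine conn_le (conn β σ) id (fun z => ?_) (conn_f β σ) e
      by_cases h1 : z = x
      · rw [h1, a1]
      by_cases h2 : z = y
      · rw [h2, a2]
      rw [a3 z h1 h2]; exact conn_a β σ z
    intro p q
    constructor
    · intro e
      refine conn_le (joinS (conn a' σ) x y) id (fun z => ?_)
        (fun z => Or.inl (conn_f a' σ z)) e
      by_cases h1 : z = x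
      · rw [h1]; exact Or.inr (Or.inl ⟨(conn a' σ).refl _, (conn a' σ).refl _⟩)
      by_cases h2 : z = y
      · rw [h2, hay]; exact Or.inr (Or.inr ⟨(conn a' σ).refl _, (conn a' σ).refl _⟩)
      rw [← a3 z h1 h2]; exact Or.inl (conn_a a' σ z)
    · have e0 : conn β σ x y := conn_a β σ x
      rintro (e | ⟨e, e'⟩ | ⟨e, e'⟩)
      · exact hle e
      · exact (conn β σ).trans ((conn β σ).trans (hle e) e0) (hle e')
      · exact (conn β σ).trans ((conn β σ).trans (hle e) ((conn β σ).symm e0)) (hle e')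
  have hfxy : σ x ≠ σ y := fun e => hne (σ.injective e).symm
  have s1 : (σ * β).SameCycle x (σ y) := sc_step (σ * β) x
  have s2 : (σ * β).SameCycle y (σ x) := by
    have := sc_step (σ * β) y
    rwa [mul_apply, hay] at this
  have hc : conn a' σ x y → cnt (conn a' σ) univ ≤ cnt (conn β σ) univ := fun hc => by
    refine cnt_anti fun p _ q _ e => ?_
    rcases (hj p q).1 e with e | ⟨e, e'⟩ | ⟨e, e'⟩
    · exact e
    · exact (conn a' σ).trans ((conn a' σ).trans e hc) e'
    · exact (conn a' σ).trans ((conn a' σ).trans e ((conn a' σ).symm hc)) e'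
  unfold Pl at hp
  by_cases e : (σ * β).SameCycle x y
  · have e' : (σ * β).SameCycle (σ x) (σ y) := (s2.symm.trans e.symm).trans s1
    have h2 := cnt_swap_split (mem_univ _) (mem_univ _) hfxy e'
    rw [← hσ] at h2
    have h3 : ¬conn a' σ x y := fun c => by have := hc c; omega
    have h4 := cnt_join (mem_univ _) (mem_univ _) h3 hj
    exact ⟨a', a1, a2, a3, hinv, by unfold Pl; omega, hj,
      fun _ => ⟨h3, hσ ▸ sc_join' hfxy e'⟩, fun h => absurd e h⟩
  · have e' : ¬(σ * β).SameCycle (σ x) (σ y) := fun c => e ((s1.trans c.symm).trans s2.symm)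
    have h2 := cnt_swap_join (mem_univ _) (mem_univ _) e'
    have h5 := sc_join e'
    rw [← hσ] at h2 h5
    have h3 : conn a' σ x y := (conn a' σ).trans ((conn a' σ).trans (conn_f a' σ x)
      (conn_of_sc ((h5 _ _).2 (Or.inr (Or.inl ⟨SameCycle.refl _ _, SameCycle.refl _ _⟩)))))
      ((conn a' σ).symm (conn_f a' σ y))
    have h4 := hc h3
    have h6 : cnt (conn β σ) univ ≤ cnt (conn a' σ) univ :=
      cnt_anti fun p _ q _ e => (hj p q).2 (Or.inl e)
    exact ⟨a', a1, a2, a3, hinv, by unfold Pl; omega, hj, fun h => absurd h e,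
      fun _ => ⟨h3, fun a b c => (h5 a b).2 (Or.inl c)⟩⟩

lemma two_cnt (h : ∀ d, φ d ≠ d) : 2 * cnt (sc φ) univ ≤ Fintype.card D := by
  classical
  unfold cnt
  rw [← card_univ]
  convert Finset.mul_card_image_le_card (f := Quotient.mk (sc φ)) univ 2 ?_
  intro c hc
  obtain ⟨d, -, rfl⟩ := mem_image.1 hc
  rw [← card_pair (h d)]
  refine card_le_card fun e he => mem_filter.2 ⟨mem_univ _, ?_⟩
  rcases mem_insert.1 he with rfl | he
  · exact Quotient.sound (sc_step φ d).symm
  · rw [mem_singleton.1 he]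

lemma exists_out [Nonempty D] (ha : ∀ z, β (β z) = z) (hp : Pl σ β) (np : ∀ d, β d ≠ σ d)
    (hf : ∀ d, β d ≠ d) : ∃ g, ¬σ.SameCycle g (β g) := by
  by_contra! h
  have h1 := two_cnt (φ := σ * β) fun d e => np (β d) (by rw [ha]; exact e.symm)
  have h2 : cnt (sc σ) univ ≤ cnt (conn β σ) univ :=
    cnt_anti fun p _ q _ e => conn_le (sc σ) id h (sc_step σ) e
  have h3 : 0 < cnt (conn β σ) univ := by
    classical
    exact card_pos.2 (univ_nonempty.image _)
  unfold Pl at hp
  rw [filter_true_of_mem fun z _ => hf z, card_univ] at hp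
  omega

end Pool.Agent.Lib.MP_b9d600_co
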