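import Pool.Agent.Lib.MP_b9d600_co.Lay
import Pool.Agent.Lib.MP_b9d600_co.Plan

/-! Blocks of the recursive construction of a layout. -/

namespace Pool.Agent.Lib.MP_b9d600_co

open Equiv Equiv.Perm Finset Relation Pool.Agent.Lib.MP_abd955_pr

set_option linter.unusedSectionVars false

variable {D : Type} [DecidableEq D] [Fintype D]

def RB (σ : Perm D) (cl : Prop) (x a b : D) : Prop :=
  (σ a = b ∧ (cl ∨ a ≠ x)) ∨ (σ b = a ∧ (cl ∨ b ≠ x))

structure Blk (σ β : Perm D) (q : D) (R : D → D → Prop) (W : Finset D) (pos : D → ℕ) (N : ℕ) :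
    Prop where
  lay : Lay W β R pos N
  fr : ∀ y ∈ W, β y = y → (σ * β).SameCycle q y → Fr W (RA β) pos y
  ord : ∀ y ∈ W, ∀ y' ∈ W, β y = y → β y' = y' → (σ * β).SameCycle q y → Rc (σ * β) q y y' →
    pos y' < pos y
  ca : ∀ a, Ch W (RA β) pos a (σ q) → σ.SameCycle q a

variable {σ β γ : Perm D} {q z x x' : D} {cl : Prop} {R R' : D → D → Prop}
  {W W' W1 W2 : Finset D} {pos p1 p2 : D → ℕ} {N N1 N2 : ℕ}

lemma Blk.single (σ β : Perm D) (q : D) (R : D → D → Prop) (x : D) :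
    Blk σ β q R {x} (fun _ => 0) 1 :=
  ⟨Lay.single x β R, fun _ _ _ _ _ _ _ h => absurd h (lt_irrefl _), fun y hy y' hy' _ _ e h => by
    rw [mem_singleton.1 hy', ← mem_singleton.1 hy] at h; exact absurd h (Rc.irrefl e),
    fun _ h => absurd h.2.2.2 (by simp)⟩

lemma Blk.transfer (B : Blk σ γ z R' W pos N)
    (hA : ∀ a ∈ W, ∀ b ∈ W, a ≠ b → RA β a b → RA γ a b)
    (hR : ∀ a ∈ W, ∀ b ∈ W, a ≠ b → R a b → R' a b) (hf : ∀ y, β y = y → γ y = y)
    (hs : ∀ y ∈ W, (σ * β).SameCycle q y → (σ * γ).SameCycle z y)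
    (hr : ∀ y ∈ W, ∀ y' ∈ W, β y = y → β y' = y' → (σ * β).SameCycle q y → Rc (σ * β) q y y' →
      Rc (σ * γ) z y y') (hc : σ q ∈ W → z = q) : Blk σ β q R W pos N :=
  ⟨B.lay.mono Subset.rfl hA hR,
    fun y hy e s => (B.fr y hy (hf y e) (hs y hy s)).mono Subset.rfl hA,
    fun y hy y' hy' e e' s r => B.ord y hy y' hy' (hf y e) (hf y' e') (hs y hy s)
      (hr y hy y' hy' e e' s r),
    fun a c => by
      obtain rfl := hc c.2.1
      exact B.ca a (c.mono Subset.rfl hA)⟩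

lemma Blk.append (B1 : Blk σ β q R W1 p1 N1) (B2 : Blk σ β q R W2 p2 N2) (hd : Disjoint W1 W2)
    (cA : ∀ a ∈ W1, β a ∈ W2 → p1 a + 1 = N1 ∧ (p2 (β a) ≠ 0 → Fr W2 (RA β) p2 (β a) ∧
      σ.SameCycle q a ∧ ∀ y ∈ W2, β y = y → (σ * β).SameCycle q y → p2 (β a) < p2 y))
    (cB : ∀ c ∈ W1, ∀ d ∈ W2, R c d → p1 c + 1 = N1 ∧ (p2 d ≠ 0 → Fr W2 (RA β) p2 d ∧
      Fr W2 R p2 d ∧ (β c ∈ W2 → p2 (β c) < p2 d)))
    (uB : ∀ c ∈ W1, ∀ d ∈ W2, ∀ d' ∈ W2, R c d → R c d' → p2 d ≠ 0 → p2 d' ≠ 0 → d = d')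
    (cO : ∀ y ∈ W1, ∀ y' ∈ W2, β y = y → β y' = y' → ¬Rc (σ * β) q y y') :
    Blk σ β q R (W1 ∪ W2) (cat W1 p1 N1 p2) (N1 + N2) := by
  have hA : ∀ a ∈ W1, ∀ b ∈ W2, RA β a b → p1 a + 1 = N1 := fun a ha b hb e =>
    (cA a ha (by rw [show β a = b from e]; exact hb)).1
  refine ⟨B1.lay.append B2.lay hd (fun a ha h => (cA a ha h).imp_right fun e h => (e h).1) cB uB,
    fun y hy e s => ?_, fun y hy y' hy' e e' s r => ?_, fun a c => ?_⟩
  · rcases mem_union.1 hy with hy | hy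
    · exact fr_l hd B1.lay.lt hA hy (B1.fr y hy e s)
    · refine fr_r hd B1.lay.lt hA hy (B2.fr y hy e s) fun a ha b hb h h0 => ?_
      obtain rfl : β a = b := h
      exact ((cA a ha hb).2 h0).2.2 y hy e s
  · rcases mem_union.1 hy with hy | hy <;> rcases mem_union.1 hy' with hy' | hy'
    · rw [cat_l hy, cat_l hy']; exact B1.ord y hy y' hy' e e' s r
    · exact absurd r (cO y hy y' hy' e e')
    · rw [cat_r hd hy, cat_l hy']; have := B1.lay.lt y' hy'; omega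
    · rw [cat_r hd hy, cat_r hd hy']; have := B2.ord y hy y' hy' e e' s r; omega
  · rcases ch_cat hd B1.lay.lt hA c with ⟨c, -⟩ | ⟨c, -⟩ | ⟨⟨c1, c2, c3⟩, -, -, -, c4⟩
    · exact B1.ca a c
    · exact B2.ca a c
    · rw [← show β a = σ q from c3] at c2 c4
      exact ((cA a c1 c2).2 c4).2.1

structure Hyp (σ β : Perm D) (q x : D) (cl : Prop) (W : Finset D) : Prop where
  pl : Pl σ β
  inv : ∀ d, β (β d) = d
  np : ∀ d, β d ≠ σ d
  fq : β q = q
  cyc : σ.SameCycle q x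
  fE : ∀ y, Rc σ q x y → β y = y
  cl : cl → σ x = q
  mem : ∀ y, y ∈ W ↔ conn β σ q y ∧ ¬Rc σ q x y

structure Out (σ β : Perm D) (q x : D) (cl : Prop) (W : Finset D) (pos : D → ℕ) (N : ℕ) : Prop
    extends Blk σ β q (RB σ cl x) W pos N where
  last : pos q + 1 = N
  one : x ≠ q → pos (σ q) + 2 = N
  top : β x = x ∨ (x ≠ σ q ∧ ¬cl) → pos x = 0

lemma Hyp.qW (H : Hyp σ β q x cl W) : q ∈ W :=
  (H.mem q).2 ⟨(conn β σ).refl q, fun h => h.ne rfl⟩

lemma Hyp.xW (H : Hyp σ β q x cl W) : x ∈ W := (H.mem x).2 ⟨conn_of_scf H.cyc, Rc.irrefl H.cyc⟩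

lemma Hyp.sW (H : Hyp σ β q x cl W) (h : x ≠ q) : σ q ∈ W :=
  (H.mem _).2 ⟨conn_f β σ q, fun r => r.back.elim (fun e => h e.symm) fun r => r.ne rfl⟩

lemma Hyp.pre (H : Hyp σ β q x cl W) {a : D} (ha : a ∈ W) (e : σ a = q) : a = x := by
  rcases rc_total (show σ.SameCycle q a from e ▸ (sc_step σ a).symm) H.cyc with h | h | h
  · exact h
  · exact absurd e h.head.1
  · exact absurd h ((H.mem a).1 ha).2

lemma Hyp.Ecl (H : Hyp σ β q x cl W) (a : D) (h : Rc σ q x a) (h' : (σ * β) a ≠ q) :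
    Rc σ q x ((σ * β) a) := by
  rw [mul_apply, H.fE a h] at *; exact h.step h'

lemma Hyp.Ep (H : Hyp σ β q x cl W) (h' : (σ * β) (β x) ≠ q) : Rc σ q x ((σ * β) (β x)) := by
  rw [mul_apply, H.inv] at *; exact Rc.one h'

lemma Hyp.fromp (H : Hyp σ β q x cl W) {y : D} (h : Rc (σ * β) q (β x) y) : Rc σ q x y := by
  by_contra h'
  exact (h.transfer (φ' := σ) (z := y) (· = β x) (Rc σ q x) (fun a e h => Or.inr (e ▸ H.Ep (e ▸ h)))
    H.Ecl rfl h').ne rfl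

lemma Hyp.sp (H : Hyp σ β q x cl W) : (σ * β).SameCycle q (β x) := by
  have h0 : (σ * β).SameCycle (β x) (σ x) := by
    have := sc_step (σ * β) (β x)
    rwa [mul_apply, H.inv] at this
  by_cases e : σ x = q
  · exact e ▸ h0.symm
  refine (sc_ind (P := fun y => (σ * β).SameCycle q (β x) ∨
    (Rc σ q x y ∧ (σ * β).SameCycle (β x) y)) ((sc_step σ x).symm.trans H.cyc.symm)
    (Or.inr ⟨Rc.one e, h0⟩) ?_).resolve_right fun h => h.1.ne rfl
  rintro y (h | ⟨h1, h2⟩)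
  · exact Or.inl h
  have h3 := h2.trans (sc_step _ y)
  rw [mul_apply, H.fE y h1] at h3
  by_cases e' : σ y = q
  · exact Or.inl (e' ▸ h3.symm)
  · exact Or.inr ⟨h1.step e', h3⟩

lemma Hyp.top (H : Hyp σ β q x cl W) {y : D} (hy : y ∈ W) (h : y ≠ β x)
    (s : (σ * β).SameCycle q y) : Rc (σ * β) q y (β x) := by
  rcases rc_total s H.sp with e | e | e
  · exact absurd e h
  · exact e
  · exact absurd (H.fromp e) ((H.mem y).1 hy).2

lemma rc_prev (e : σ x' = x) (hx : x ≠ q) (y : D) : Rc σ q x' y ↔ y = x ∨ Rc σ q x y := by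
  subst e
  exact ⟨fun h => h.head.2, fun h => h.elim (fun e => e ▸ Rc.one hx) (Rc.cons hx)⟩

lemma Out.cons (H : Hyp σ β q x cl W) (B : Blk σ β q (RB σ cl x) W2 p2 N2) (hx : x ∉ W2)
    (hW : {x} ∪ W2 = W) (hq : x ≠ q) (last : p2 q + 1 = N2)
    (one : p2 (σ q) + 2 = N2 ∧ x ≠ σ q ∨ x = σ q ∧ N2 = 1)
    (cA : β x ∈ W2 → Fr W2 (RA β) p2 (β x) ∧
      ∀ y ∈ W2, β y = y → (σ * β).SameCycle q y → p2 (β x) < p2 y)
    (cB : ∀ d ∈ W2, RB σ cl x x d → p2 d ≠ 0 → Fr W2 (RA β) p2 d ∧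
      Fr W2 (RB σ cl x) p2 d ∧ (β x ∈ W2 → p2 (β x) < p2 d))
    (uB : ∀ d ∈ W2, ∀ d' ∈ W2, RB σ cl x x d → RB σ cl x x d' → p2 d ≠ 0 → p2 d' ≠ 0 → d = d') :
    ∃ pos N, Out σ β q x cl W pos N := by
  have hd : Disjoint {x} W2 := disjoint_singleton_left.2 hx
  have m : ∀ y ∈ W, y ≠ x → y ∈ W2 := fun y hy h => by
    rw [← hW] at hy; exact (mem_union.1 hy).resolve_left (by simpa using h)
  have B' := (Blk.single σ β q _ x).append B hd
    (fun a ha h => by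
      obtain rfl := mem_singleton.1 ha
      exact ⟨rfl, fun _ => ⟨(cA h).1, H.cyc, (cA h).2⟩⟩)
    (fun a ha d hd' h => by
      obtain rfl := mem_singleton.1 ha
      exact ⟨rfl, cB d hd' h⟩)
    (fun a ha => by
      obtain rfl := mem_singleton.1 ha
      exact uB)
    (fun a ha y hy e _ r => by
      obtain rfl := mem_singleton.1 ha
      exact ((H.mem y).1 (hW ▸ mem_union_right _ hy)).2 (H.fromp (by rwa [e])))
  rw [hW] at B'
  refine ⟨_, _, B', ?_, fun _ => ?_, fun _ => ?_⟩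
  · rw [cat_r hd (m q H.qW hq.symm)]; omega
  · rcases one with ⟨h, h'⟩ | ⟨h, h'⟩
    · rw [cat_r hd (m _ (H.sW hq) h'.symm)]; omega
    · rw [← h, cat_l (mem_singleton_self x), h']
  · exact cat_l (mem_singleton_self x)

/-- what the step at `x` needs of the layout of the part after `x` -/
structure Nxt (σ γ : Perm D) (q x : D) (cl : Prop) (W : Finset D) (pos : D → ℕ) (N : ℕ) :
    Prop where
  nx : x ∉ W
  rel : ∀ a ∈ W, ∀ b ∈ W, a ≠ b → RB σ cl x a b → RB σ False (σ⁻¹ x) a b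
  one : pos (σ q) + 2 = N ∧ x ≠ σ q ∨ x = σ q ∧ N = 1
  cB : ∀ d ∈ W, RB σ cl x x d → Fr W (RA γ) pos d ∧ Fr W (RB σ cl x) pos d ∧
    (pos d ≠ 0 → ∀ b ∈ W, b ≠ q → b ≠ d → pos b < pos d)
  uB : ∀ d ∈ W, ∀ d' ∈ W, RB σ cl x x d → RB σ cl x x d' → pos d ≠ 0 → pos d' ≠ 0 → d = d'

lemma Out.nxt (hσ : ∀ d, σ d ≠ d ∧ σ (σ d) ≠ d ∧ σ (σ (σ d)) ≠ d)
    (H : Hyp σ γ q (σ⁻¹ x) False W) (O : Out σ γ q (σ⁻¹ x) False W pos N) (hq : x ≠ q)
    (hc : cl → σ x = q) : Nxt σ γ q x cl W pos N := by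
  set x' := σ⁻¹ x with hx'
  have e : σ x' = x := by simp [hx']
  have nx : x ∉ W := fun h => ((H.mem x).1 h).2 (e ▸ Rc.one (e ▸ hq))
  have rel : ∀ a ∈ W, ∀ b ∈ W, a ≠ b → RB σ cl x a b → RB σ False x' a b := by
    rintro a ha b hb - (⟨h, -⟩ | ⟨h, -⟩)
    · exact Or.inl ⟨h, Or.inr fun c => nx (by rw [← e, ← c, h]; exact hb)⟩
    · exact Or.inr ⟨h, Or.inr fun c => nx (by rw [← e, ← c, h]; exact ha)⟩
  have lt : ∀ b ∈ W, b ≠ q → pos b < pos q := fun b hb h => by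
    have h1 := O.lay.lt b hb
    have h2 := O.last
    have h3 : pos b ≠ pos q := fun c => h (O.lay.inj b hb q H.qW c)
    omega
  have z0 : x' ≠ σ q → pos x' = 0 := fun h => O.top (Or.inr ⟨h, id⟩)
  have cs : ∀ d, RB σ cl x x d → d = x' ∨ (d = q ∧ σ x = q) := by
    rintro d (⟨h, h'⟩ | ⟨h, -⟩)
    · have := hc (h'.resolve_right (by simp))
      exact Or.inr ⟨h.symm.trans this, this⟩
    · exact Or.inl (σ.injective (h.trans e.symm))
  have c3 : σ x = q → x' ≠ σ q ∧ x' ≠ q := fun h =>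
    ⟨fun c => (hσ q).2.2 (by rw [← c, e, h]), fun c => (hσ q).2.1 (by rw [← c, e, h, c])⟩
  have nq : ∀ a, ¬Ch W (RB σ cl x) pos a q := by
    rintro a ⟨ha, -, h | h, hl⟩
    · exact hq (by rw [← e, ← H.pre ha h.1, h.1])
    · by_cases c : x' = q
      · exact nx (by rw [← e, c, h.1]; exact ha)
      · have := O.one c; have := O.last; rw [h.1] at *; omega
  refine ⟨nx, rel, ?_, fun d hd h => ?_, fun d _ d' _ h h' h0 h0' => ?_⟩
  · by_cases c : x' = q
    · have := z0 (by rw [c]; exact (hσ q).1.symm)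
      have := O.last
      exact Or.inr ⟨c ▸ e.symm, by rw [c] at *; omega⟩
    · exact Or.inl ⟨O.one c, fun h => c (σ.injective (e.trans h))⟩
  · rcases cs d h with rfl | ⟨rfl, h1⟩
    · by_cases c : x' = σ q
      swap
      · have := z0 c
        exact ⟨fun _ _ _ h => by omega, fun _ _ _ h => by omega, fun h => absurd this h⟩
      have c' : x' ≠ q := by rw [c]; exact (hσ q).1
      have h1 := O.one c'
      have h2 := O.last
      rw [← c] at h1
      have l2 : ∀ b ∈ W, b ≠ q → b ≠ x' → pos b < pos x' := fun b hb h h' => by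
        have := lt b hb h
        have h3 : pos b ≠ pos x' := fun c => h' (O.lay.inj b hb _ hd c)
        omega
      refine ⟨fun a b k l => l2 b k.2.1 ?_ ?_, fun a b k l => l2 b k.2.1 ?_ ?_, fun _ => l2⟩
      · rintro rfl
        have : a = b := γ.injective (k.2.2.1.trans H.fq.symm)
        have := k.2.2.2
        subst a; omega
      · rintro rfl
        rcases rc_total (O.ca a (c ▸ k)) H.cyc with r | r | r
        · rw [r] at l; omega
        · rw [c] at r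
          rcases r.back with r | r
          · rw [← r] at l; omega
          · exact r.ne rfl
        · exact ((H.mem a).1 k.1).2 r
      · rintro rfl; exact nq a k
      · rintro rfl
        rcases k.2.2.1 with r | r
        · rw [σ.injective (r.1.trans c)] at l; omega
        · exact nx (by rw [← e, r.1]; exact k.1)
    · exact ⟨O.fr _ hd H.fq (SameCycle.refl _ _), fun a b k _ => lt b k.2.1 fun c => nq a (c ▸ k),
        fun _ b hb h _ => lt b hb h⟩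
  · rcases cs d h with rfl | ⟨rfl, h1⟩ <;> rcases cs d' h' with rfl | ⟨rfl, h2⟩
    · rfl
    · exact absurd (z0 (c3 h2).1) h0
    · exact absurd (z0 (c3 h1).1) h0'
    · rfl

end Pool.Agent.Lib.MP_b9d600_co
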