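import Mathlib

/-! Coordinates for a linear order with vertical chords `A` and horizontal chords `B`. -/

namespace Pool.Agent.Lib.MP_b9d600_co

open Set Function

lemma exists_small {U : Set ℝ} (hU : U.Finite) (h : ∀ u ∈ U, 0 < u) :
    ∃ δ, 0 < δ ∧ ∀ u ∈ U, 2 * δ < u := by
  rcases U.eq_empty_or_nonempty with rfl | hn
  · exact ⟨1, one_pos, by simp⟩
  · obtain ⟨m, hm, hm'⟩ := Set.exists_min_image U id hU hn
    exact ⟨m / 3, by have := h m hm; positivity, fun u hu => by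
      have := hm' u hu; have := h m hm; simp only [id] at *; linarith⟩

lemma exists_between_sets {L U : Set ℝ} (hL : L.Finite) (hU : U.Finite) (hn : U.Nonempty)
    (h : ∀ l ∈ L, ∀ u ∈ U, l < u) : ∃ x, (∀ l ∈ L, l < x) ∧ ∀ u ∈ U, x < u := by
  obtain ⟨m, hm, hm'⟩ := Set.exists_min_image U id hU hn
  obtain ⟨δ, h0, h1⟩ := exists_small (hL.image fun l => m - l) (by
    rintro _ ⟨l, hl, rfl⟩; exact sub_pos.2 (h l hl m hm))
  refine ⟨m - δ, fun l hl => ?_, fun u hu => ?_⟩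
  · have := h1 _ ⟨l, hl, rfl⟩; simp only at this; linarith
  · have := hm' u hu; simp only [id] at this; linarith

lemma fin_rel {R : ℕ → ℕ → Prop} (ho : ∀ a b b', R a b → R a b' → b = b') (k : ℕ) :
    {p : ℕ × ℕ | R p.1 p.2 ∧ p.1 < k}.Finite := by
  refine Set.Finite.of_finite_image (f := Prod.fst) ((Set.finite_Iio k).subset ?_) ?_
  · rintro _ ⟨p, hp, rfl⟩; exact hp.2
  · rintro ⟨a, b⟩ h ⟨a', b'⟩ h' e
    obtain rfl : a = a' := e
    rw [ho a b b' h.1 h'.1]

structure Chords (A B : ℕ → ℕ → Prop) : Prop where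
  hA : ∀ a b, A a b → a < b
  hB : ∀ a b, B a b → a < b
  ao : ∀ a b b', A a b → A a b' → b = b'
  bo : ∀ a b b', B a b → B a b' → b = b'
  aa : ∀ a b a' b', A a b → A a' b' → a < a' → a' < b → b' < b
  bb : ∀ a b a' b', B a b → B a' b' → a < a' → a' < b → b' < b
  ab : ∀ a b c d, A a b → B c d → c ≤ a → a < d → b < d

structure Inv (A B : ℕ → ℕ → Prop) (k m : ℕ) (X Y : ℕ → ℝ) : Prop where
  s : ∀ i j, i < j → j < k → Y i - X i < Y j - X j
  ae : ∀ a b, A a b → b < k → X a = X b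
  ai : ∀ a b w, A a b → a < w → w < b → w < k → X a < X w
  be : ∀ c d, B c d → d < k → Y c = Y d
  bi : ∀ c d w, B c d → c < w → w < d → w < k → Y c < Y w
  k0 : ∀ c d w, B c d → c < m → k ≤ d → w < k → Y w - X w < Y c - X d
  k1 : ∀ a b c d w, A a b → B c d → a < k → k ≤ b → c < m → b < d → a ≤ w → c ≤ w → w < k →
    Y w < Y c - X d + X a
  ke : ∀ a c d, A a d → B c d → c < m → k ≤ d → X a = X d
  kg : ∀ a b c d, A a b → B c d → c < m → k ≤ d → a < k → d < b → X a < X d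
  k2 : ∀ c d c' d', B c d → B c' d' → c < c' → c' < m → k ≤ d' → k ≤ d → Y c' - X d' < Y c - X d

variable {A B : ℕ → ℕ → Prop} {X Y : ℕ → ℝ}

lemma Inv.closeB (h : Chords A B) {k c0 : ℕ} (I : Inv A B k k X Y) (h0 : B c0 k) :
    Inv A B (k + 1) k X (update Y k (Y c0)) := by
  have c0k := h.hB _ _ h0
  have u : ∀ i, i < k → update Y k (Y c0) i = Y i := fun i hi => update_of_ne hi.ne _ _
  have out : ∀ c d, B c d → c < k → k < d → c < c0 := by
    intro c d hc h1 h2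
    rcases lt_trichotomy c c0 with e | e | e
    · exact e
    · subst e; have := h.bo _ _ _ hc h0; omega
    · have := h.bb _ _ _ _ h0 hc e h1; omega
  have K0 : ∀ c d w, B c d → c < k → k + 1 ≤ d → w < k + 1 →
      update Y k (Y c0) w - X w < update Y k (Y c0) c - X d := by
    intro c d w hc h1 h2 h3
    rw [u c h1]
    rcases (Nat.lt_succ_iff.1 h3).eq_or_lt with rfl | e
    · rw [update_self]; exact I.k2 _ _ _ _ hc h0 (out c d hc h1 h2) c0k le_rfl (by omega)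
    · rw [u w e]; exact I.k0 _ _ _ hc h1 (by omega) e
  refine ⟨fun i j h1 h2 => ?_, fun a b ha h1 => ?_, fun a b w ha h1 h2 h3 => ?_,
    fun c d hc h1 => ?_, fun c d w hc h1 h2 h3 => ?_, K0,
    fun a b c d w ha hc h1 h2 h3 h4 h5 h6 h7 => ?_, fun a c d ha hc h1 h2 => ?_,
    fun a b c d ha hc h1 h2 h3 h4 => ?_, fun c d c' d' hc hc' h1 h2 h3 h4 => ?_⟩
  · rcases (Nat.lt_succ_iff.1 h2).eq_or_lt with rfl | e
    · rw [update_self, u i h1]; exact I.k0 _ _ _ h0 c0k le_rfl h1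
    · rw [u i (by omega), u j e]; exact I.s _ _ h1 e
  · rcases (Nat.lt_succ_iff.1 h1).eq_or_lt with rfl | e
    · exact I.ke _ _ _ ha h0 c0k le_rfl
    · exact I.ae _ _ ha e
  · rcases (Nat.lt_succ_iff.1 h3).eq_or_lt with rfl | e
    · exact I.kg _ _ _ _ ha h0 c0k le_rfl h1 h2
    · exact I.ai _ _ _ ha h1 h2 e
  · have hcd := h.hB _ _ hc
    rcases (Nat.lt_succ_iff.1 h1).eq_or_lt with rfl | e
    · rw [update_self, u c hcd]
      rcases lt_trichotomy c c0 with e | e | e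
      · have := h.bb _ _ _ _ hc h0 e c0k; omega
      · rw [e]
      · have := h.bb _ _ _ _ h0 hc e hcd; omega
    · rw [u c (by omega), u d e]; exact I.be _ _ hc e
  · rcases (Nat.lt_succ_iff.1 h3).eq_or_lt with rfl | e
    · rw [update_self, u c h1]; exact I.bi _ _ _ hc (out c d hc h1 h2) (by omega) c0k
    · rw [u c (by omega), u w e]; exact I.bi _ _ _ hc h1 h2 e
  · rcases (Nat.lt_succ_iff.1 h1).eq_or_lt with rfl | e
    · obtain rfl : w = a := by omega
      have := K0 c d w hc h3 (by omega) h7; linarith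
    · rw [u c h3]
      rcases (Nat.lt_succ_iff.1 h7).eq_or_lt with rfl | e'
      · rw [update_self]
        have : a < c0 := by
          by_contra hn
          have := h.ab _ _ _ _ ha h0 (by omega) e; omega
        exact I.k1 _ _ _ _ _ ha hc e (by omega) h3 h4 this.le (out c d hc h3 (by omega)).le c0k
      · rw [u w e']; exact I.k1 _ _ _ _ _ ha hc e (by omega) h3 h4 h5 h6 e'
  · exact I.ke _ _ _ ha hc h1 (by omega)
  · have : a < c := by
      by_contra hn
      have := h.ab _ _ _ _ ha hc (by omega) (by omega); omega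
    exact I.kg _ _ _ _ ha hc h1 (by omega) (by omega) h4
  · rw [u c' h2, u c (by omega)]; exact I.k2 _ _ _ _ hc hc' h1 h2 (by omega) (by omega)

lemma Inv.place (h : Chords A B) {n : ℕ} (I : Inv A B (n + 1) (n + 1) X Y)
    (h0 : ∀ c, ¬B c (n + 1)) : ∃ X' Y', Inv A B (n + 1 + 1) (n + 1) X' Y' := by
  obtain ⟨δ, hδ, hs⟩ := exists_small (U := (fun p : ℕ × ℕ => Y p.1 - X p.2 - (Y n - X n)) ''
      {p | (B p.1 p.2 ∧ p.1 < n + 1) ∧ n + 1 ≤ p.2} ∪
      (fun p : (ℕ × ℕ) × ℕ × ℕ => Y p.2.1 - X p.2.2 + X p.1.1 - Y n) ''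
      {p | ((A p.1.1 p.1.2 ∧ p.1.1 < n + 1) ∧ B p.2.1 p.2.2 ∧ p.2.1 < n + 1) ∧
        n + 1 ≤ p.1.2 ∧ p.1.2 < p.2.2})
    ((((fin_rel h.bo (n + 1)).subset fun p hp => hp.1).image _).union
      ((((fin_rel h.ao (n + 1)).prod (fin_rel h.bo (n + 1))).subset fun p hp => hp.1).image _)) (by
    rintro _ (⟨⟨c, d⟩, ⟨⟨h1, h2⟩, h3⟩, rfl⟩ | ⟨⟨⟨a, b⟩, c, d⟩, ⟨⟨⟨h1, h2⟩, h3, h4⟩, h5, h6⟩, rfl⟩)
    · exact sub_pos.2 (I.k0 _ _ _ h1 h2 h3 (by omega))
    · exact sub_pos.2 (I.k1 _ _ _ _ _ h1 h3 h2 h5 h4 h6 (Nat.lt_succ_iff.1 h2)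
        (Nat.lt_succ_iff.1 h4) (by omega)))
  have s1 : ∀ c d, B c d → c < n + 1 → n + 1 ≤ d → 2 * δ < Y c - X d - (Y n - X n) :=
    fun c d h1 h2 h3 => hs _ (Or.inl ⟨(c, d), ⟨⟨h1, h2⟩, h3⟩, rfl⟩)
  have s2 : ∀ a b c d, A a b → B c d → a < n + 1 → c < n + 1 → n + 1 ≤ b → b < d →
      2 * δ < Y c - X d + X a - Y n :=
    fun a b c d h1 h2 h3 h4 h5 h6 =>
      hs _ (Or.inr ⟨((a, b), c, d), ⟨⟨⟨h1, h3⟩, h2, h4⟩, h5, h6⟩, rfl⟩)
  have an : ∀ a b, A a b → a < n + 1 → n + 1 ≤ b → X a ≤ X n := by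
    intro a b ha h1 h2
    rcases (Nat.lt_succ_iff.1 h1).eq_or_lt with rfl | e
    · exact le_rfl
    · exact (I.ai _ _ _ ha e (by omega) (by omega)).le
  obtain ⟨x, x1, x2, x3, x4⟩ : ∃ x : ℝ, x ≤ X n + δ ∧ (∀ a, A a (n + 1) → X a = x) ∧
      (∀ a b, A a b → a < n + 1 → n + 1 < b → X a < x) ∧
      ∀ c d, B c d → c < n + 1 → n + 1 < d → Y n + 2 * δ - x < Y c - X d := by
    by_cases e : ∃ a0, A a0 (n + 1)
    · obtain ⟨a0, e⟩ := e
      have l0 := h.hA _ _ e
      refine ⟨X a0, by have := an _ _ e l0 le_rfl; linarith, fun a ha => ?_,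
        fun a b ha h1 h2 => ?_, fun c d hc h1 h2 => ?_⟩
      · have := h.hA _ _ ha
        rcases lt_trichotomy a a0 with e' | e' | e'
        · have := h.aa _ _ _ _ ha e e' l0; omega
        · rw [e']
        · have := h.aa _ _ _ _ e ha e' this; omega
      · rcases lt_trichotomy a a0 with e' | e' | e'
        · exact I.ai _ _ _ ha e' (by omega) l0
        · subst e'; have := h.ao _ _ _ ha e; omega
        · have := h.aa _ _ _ _ e ha e' h1; omega
      · have := s2 _ _ _ _ e hc l0 h1 le_rfl h2; linarith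
    · exact ⟨X n + δ, le_rfl, fun a ha => absurd ⟨a, ha⟩ e,
        fun a b ha h1 h2 => by have := an _ _ ha h1 h2.le; linarith,
        fun c d hc h1 h2 => by have := s1 _ _ hc h1 h2.le; linarith⟩
  generalize hk : n + 1 = k at *
  have u : ∀ i, i < k → update Y k (Y n + 2 * δ) i = Y i := fun i hi => update_of_ne hi.ne _ _
  have v : ∀ i, i ≠ k → update X k x i = X i := fun i hi => update_of_ne hi _ _
  have K0 : ∀ c d w, B c d → c < k → k + 1 ≤ d → w < k + 1 →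
      update Y k (Y n + 2 * δ) w - update X k x w < update Y k (Y n + 2 * δ) c - update X k x d := by
    intro c d w hc h1 h2 h3
    rw [u c h1, v d (by omega)]
    rcases (Nat.lt_succ_iff.1 h3).eq_or_lt with rfl | e
    · rw [update_self, update_self]; exact x4 _ _ hc h1 h2
    · rw [u w e, v w e.ne]; exact I.k0 _ _ _ hc h1 (by omega) e
  refine ⟨update X k x, update Y k (Y n + 2 * δ), fun i j h1 h2 => ?_, fun a b ha h1 => ?_,
    fun a b w ha h1 h2 h3 => ?_, fun c d hc h1 => ?_, fun c d w hc h1 h2 h3 => ?_, K0,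
    fun a b c d w ha hc h1 h2 h3 h4 h5 h6 h7 => ?_, fun a c d ha hc h1 h2 => ?_,
    fun a b c d ha hc h1 h2 h3 h4 => ?_, fun c d c' d' hc hc' h1 h2 h3 h4 => ?_⟩
  · rcases (Nat.lt_succ_iff.1 h2).eq_or_lt with rfl | e
    · rw [update_self, update_self, u i h1, v i h1.ne]
      rcases (show i = n ∨ i < n by omega) with rfl | e
      · linarith
      · have := I.s i n e (by omega); linarith
    · rw [u i (by omega), u j e, v i (by omega), v j e.ne]; exact I.s _ _ h1 e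
  · have := h.hA _ _ ha
    rw [v a (by omega)]
    rcases (Nat.lt_succ_iff.1 h1).eq_or_lt with rfl | e
    · rw [update_self]; exact x2 _ ha
    · rw [v b e.ne]; exact I.ae _ _ ha e
  · rw [v a (by omega)]
    rcases (Nat.lt_succ_iff.1 h3).eq_or_lt with rfl | e
    · rw [update_self]; exact x3 _ _ ha h1 h2
    · rw [v w e.ne]; exact I.ai _ _ _ ha h1 h2 e
  · have hcd := h.hB _ _ hc
    rcases (Nat.lt_succ_iff.1 h1).eq_or_lt with rfl | e
    · exact absurd hc (h0 c)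
    · rw [u c (by omega), u d e]; exact I.be _ _ hc e
  · rw [u c (by omega)]
    rcases (Nat.lt_succ_iff.1 h3).eq_or_lt with rfl | e
    · rw [update_self]
      rcases (show c = n ∨ c < n by omega) with rfl | e
      · linarith
      · have := I.bi c d n hc e (by omega) (by omega); linarith
    · rw [u w e]; exact I.bi _ _ _ hc h1 h2 e
  · rcases (Nat.lt_succ_iff.1 h1).eq_or_lt with rfl | e
    · obtain rfl : w = a := by omega
      have := K0 c d w hc h3 (by omega) h7; linarith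
    · rw [u c h3, v d (by omega), v a e.ne]
      rcases (Nat.lt_succ_iff.1 h7).eq_or_lt with rfl | e'
      · rw [update_self]
        have := s2 _ _ _ _ ha hc e h3 (by omega) h4; linarith
      · rw [u w e']; exact I.k1 _ _ _ _ _ ha hc e (by omega) h3 h4 h5 h6 e'
  · have : a < c := by
      by_contra hn
      have := h.ab _ _ _ _ ha hc (by omega) (h.hA _ _ ha); omega
    rw [v a (by omega), v d (by omega)]
    exact I.ke _ _ _ ha hc h1 (by omega)
  · have : a < c := by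
      by_contra hn
      have := h.ab _ _ _ _ ha hc (by omega) (by omega); omega
    rw [v a (by omega), v d (by omega)]
    exact I.kg _ _ _ _ ha hc h1 (by omega) (by omega) h4
  · rw [u c' h2, u c (by omega), v d (by omega), v d' (by omega)]
    exact I.k2 _ _ _ _ hc hc' h1 h2 (by omega) (by omega)

lemma Inv.openB (h : Chords A B) {k : ℕ} (I : Inv A B (k + 1) k X Y) :
    ∃ X', Inv A B (k + 1) (k + 1) X' Y := by
  by_cases e : ∃ d0, B k d0
  swap
  · have l : ∀ c d, B c d → c < k + 1 → c < k := fun c d hc h1 =>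
      lt_of_le_of_ne (Nat.lt_succ_iff.1 h1) fun e' => e ⟨d, e' ▸ hc⟩
    exact ⟨X, I.s, I.ae, I.ai, I.be, I.bi, fun c d w hc h1 => I.k0 c d w hc (l c d hc h1),
      fun a b c d w ha hc h1 h2 h3 => I.k1 a b c d w ha hc h1 h2 (l c d hc h3),
      fun a c d ha hc h1 => I.ke a c d ha hc (l c d hc h1),
      fun a b c d ha hc h1 => I.kg a b c d ha hc (l c d hc h1),
      fun c d c' d' hc hc' h1 h2 => I.k2 c d c' d' hc hc' h1 (l c' d' hc' h2)⟩
  obtain ⟨d0, e⟩ := e
  have l0 := h.hB _ _ e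
  have big : ∀ a b, A a b → a < k + 1 → d0 ≤ b → a < k := by
    intro a b ha h1 h2
    by_contra hn
    have := h.ab _ _ _ _ ha e (by omega) (by omega); omega
  have nest : ∀ a b a' b', A a b → A a' b' → a < k + 1 → a' < k + 1 → k < b' → b' < b →
      X a < X a' := by
    intro a b a' b' ha ha' h1 h2 h3 h4
    rcases lt_trichotomy a a' with e' | e' | e'
    · exact I.ai _ _ _ ha e' (by omega) h2
    · subst e'; have := h.ao _ _ _ ha ha'; omega
    · have := h.aa _ _ _ _ ha' ha e' (by omega); omega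
  have dd : ∀ c d, B c d → c < k → k < d → d0 < d := fun c d hc h1 h2 => h.bb _ _ _ _ hc e h1 h2
  obtain ⟨x, x1, x2, x3, x4, x5⟩ : ∃ x : ℝ, x < X k ∧
      (∀ a b, A a b → a < k + 1 → k < b → b < d0 → x < X a) ∧ (∀ a, A a d0 → X a = x) ∧
      (∀ a b, A a b → a < k + 1 → d0 < b → X a < x) ∧
      ∀ c d, B c d → c < k → k < d → Y k - (Y c - X d) < x := by
    by_cases e1 : ∃ a0, A a0 d0
    · obtain ⟨a0, e1⟩ := e1
      have l1 : ∀ a, A a d0 → a < k := fun a ha => by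
        by_contra hn
        have := h.ab _ _ _ _ ha e (by omega) (h.hA _ _ ha); omega
      have l2 := l1 _ e1
      refine ⟨X a0, I.ai _ _ _ e1 l2 l0 (by omega), fun a b ha h1 h2 h3 =>
        nest _ _ _ _ e1 ha (by omega) h1 h2 h3, fun a ha => ?_, fun a b ha h1 h2 =>
        nest _ _ _ _ ha e1 h1 (by omega) l0 h2, fun c d hc h1 h2 => ?_⟩
      · have := l1 _ ha
        rcases lt_trichotomy a a0 with e' | e' | e'
        · have := h.aa _ _ _ _ ha e1 e' (by omega); omega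
        · rw [e']
        · have := h.aa _ _ _ _ e1 ha e' (by omega); omega
      · have := I.k1 _ _ _ _ k e1 hc (by omega) l0 h1 (dd _ _ hc h1 h2) l2.le h1.le (by omega)
        linarith
    · obtain ⟨x, y1, y2⟩ := exists_between_sets
        (L := (fun p : ℕ × ℕ => X p.1) '' {p | (A p.1 p.2 ∧ p.1 < k + 1) ∧ d0 < p.2} ∪
          (fun p : ℕ × ℕ => Y k - (Y p.1 - X p.2)) '' {p | (B p.1 p.2 ∧ p.1 < k) ∧ k < p.2})
        (U := insert (X k) ((fun p : ℕ × ℕ => X p.1) ''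
          {p | (A p.1 p.2 ∧ p.1 < k + 1) ∧ k < p.2 ∧ p.2 < d0}))
        ((((fin_rel h.ao (k + 1)).subset fun p hp => hp.1).image _).union
          (((fin_rel h.bo k).subset fun p hp => hp.1).image _))
        ((((fin_rel h.ao (k + 1)).subset fun p hp => hp.1).image _).insert _)
        (insert_nonempty _ _) (by
          rintro _ (⟨⟨a, b⟩, ⟨⟨h1, h2⟩, h3⟩, rfl⟩ | ⟨⟨c, d⟩, ⟨⟨h1, h2⟩, h3⟩, rfl⟩) _
            (rfl | ⟨⟨a', b'⟩, ⟨⟨g1, g2⟩, g3, g4⟩, rfl⟩) <;> simp only at *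
          · exact I.ai _ _ _ h1 (big _ _ h1 h2 h3.le) (by omega) (by omega)
          · exact nest _ _ _ _ h1 g1 h2 g2 g3 (by omega)
          · have := I.k0 _ _ k h1 h2 h3 (by omega); linarith
          · have := I.k1 _ _ _ _ k g1 h1 g2 g3 h2 (g4.trans (dd _ _ h1 h2 h3)) (by omega) h2.le
              (by omega)
            linarith)
      exact ⟨x, y2 _ (Or.inl rfl), fun a b ha h1 h2 h3 =>
        y2 _ (Or.inr ⟨(a, b), ⟨⟨ha, h1⟩, h2, h3⟩, rfl⟩), fun a ha => absurd ⟨a, ha⟩ e1,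
        fun a b ha h1 h2 => y1 _ (Or.inl ⟨(a, b), ⟨⟨ha, h1⟩, h2⟩, rfl⟩),
        fun c d hc h1 h2 => y1 _ (Or.inr ⟨(c, d), ⟨⟨hc, h1⟩, h2⟩, rfl⟩)⟩
  have v : ∀ i, i ≠ d0 → update X d0 x i = X i := fun i hi => update_of_ne hi _ _
  have cs : ∀ c d, B c d → c < k + 1 → k + 1 ≤ d → (c = k ∧ d = d0) ∨ (c < k ∧ d0 < d) := by
    intro c d hc h1 h2
    rcases (Nat.lt_succ_iff.1 h1).eq_or_lt with rfl | e'
    · exact Or.inl ⟨rfl, h.bo _ _ _ hc e⟩
    · exact Or.inr ⟨e', dd _ _ hc e' h2⟩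
  refine ⟨update X d0 x, fun i j h1 h2 => ?_, fun a b ha h1 => ?_, fun a b w ha h1 h2 h3 => ?_,
    I.be, I.bi, fun c d w hc h1 h2 h3 => ?_,
    fun a b c d w ha hc h1 h2 h3 h4 h5 h6 h7 => ?_, fun a c d ha hc h1 h2 => ?_,
    fun a b c d ha hc h1 h2 h3 h4 => ?_, fun c d c' d' hc hc' h1 h2 h3 h4 => ?_⟩
  · rw [v i (by omega), v j (by omega)]; exact I.s _ _ h1 h2
  · have := h.hA _ _ ha
    rw [v a (by omega), v b (by omega)]; exact I.ae _ _ ha h1
  · rw [v a (by omega), v w (by omega)]; exact I.ai _ _ _ ha h1 h2 h3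
  · rw [v w (by omega)]
    rcases cs c d hc h1 h2 with ⟨rfl, rfl⟩ | ⟨e1, e2⟩
    · rw [update_self]
      rcases (Nat.lt_succ_iff.1 h3).eq_or_lt with rfl | e'
      · linarith
      · have := I.s w c e' (by omega); linarith
    · rw [v d (by omega)]; exact I.k0 _ _ _ hc e1 h2 h3
  · rw [v a (by omega)]
    rcases cs c d hc h3 (by omega) with ⟨rfl, rfl⟩ | ⟨e1, e2⟩
    · obtain rfl : w = c := by omega
      rw [update_self]
      have := x2 _ _ ha h1 h2 h4; linarith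
    · rw [v d (by omega)]; exact I.k1 _ _ _ _ _ ha hc h1 h2 e1 h4 h5 h6 h7
  · have : a < c := by
      by_contra hn
      have := h.ab _ _ _ _ ha hc (by omega) (h.hA _ _ ha); omega
    rw [v a (by omega)]
    rcases cs c d hc h1 h2 with ⟨rfl, rfl⟩ | ⟨e1, e2⟩
    · rw [update_self]; exact x3 _ ha
    · rw [v d (by omega)]; exact I.ke _ _ _ ha hc e1 h2
  · rw [v a (by omega)]
    rcases cs c d hc h1 h2 with ⟨rfl, rfl⟩ | ⟨e1, e2⟩
    · rw [update_self]; exact x4 _ _ ha h3 h4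
    · rw [v d (by omega)]; exact I.kg _ _ _ _ ha hc e1 h2 h3 h4
  · rcases cs c d hc (by omega) h4 with ⟨rfl, rfl⟩ | ⟨g1, g2⟩
    · omega
    rw [v d (by omega)]
    rcases cs c' d' hc' h2 h3 with ⟨rfl, rfl⟩ | ⟨e1, e2⟩
    · rw [update_self]
      have := x5 _ _ hc g1 h4; linarith
    · rw [v d' (by omega)]; exact I.k2 _ _ _ _ hc hc' h1 e1 h3 h4

theorem coord (h : Chords A B) (k : ℕ) : ∃ X Y, Inv A B (k + 1) (k + 1) X Y := by
  induction k with
  | zero =>
    have I : Inv A B (0 + 1) 0 (fun _ => 0) (fun _ => 0) :=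
      ⟨fun i j _ _ => by omega, fun _ _ _ _ => rfl, fun _ _ _ _ _ _ _ => by omega,
        fun _ _ _ _ => rfl, fun _ _ _ _ _ _ _ => by omega, fun _ _ _ _ _ => by omega,
        fun _ _ _ _ _ _ _ _ _ _ => by omega, fun _ _ _ _ _ _ => by omega,
        fun _ _ _ _ _ _ _ => by omega, fun _ _ _ _ _ _ _ _ => by omega⟩
    obtain ⟨X, I'⟩ := I.openB h
    exact ⟨X, _, I'⟩
  | succ n ih =>
    obtain ⟨X, Y, I⟩ := ih
    by_cases e : ∃ c, B c (n + 1)
    · obtain ⟨c, e⟩ := e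
      obtain ⟨X', I'⟩ := (I.closeB h e).openB h
      exact ⟨X', _, I'⟩
    · obtain ⟨X', Y', I'⟩ := I.place h fun c hc => e ⟨c, hc⟩
      obtain ⟨X'', I''⟩ := I'.openB h
      exact ⟨X'', Y', I''⟩

end Pool.Agent.Lib.MP_b9d600_co
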