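import Pool.Agent.Lib.MP_b9d600_co.Init

/-! From a subcubic plane graph with a cover by faces to the map of the covering faces. -/

namespace Pool.Agent.Lib.MP_b9d600_co

open Equiv Equiv.Perm Finset Pool.Agent.Lib.MP_abd955_pr

lemma cnt_image_le {D E : Type} [DecidableEq D] [DecidableEq E] (r : Setoid D) (r' : Setoid E)
    (φ : D → E) (U : Finset D) (h : ∀ x y, r x y → r' (φ x) (φ y)) :
    cnt r' (U.image φ) ≤ cnt r U := by
  rw [← cnt_map (r'.comap φ) r' φ U fun _ _ _ _ => Iff.rfl]
  exact cnt_anti fun x _ y _ => h x y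

lemma cnt_union_le {D : Type} [DecidableEq D] (r : Setoid D) (U W : Finset D) :
    cnt r (U ∪ W) ≤ cnt r U + cnt r W := by
  classical
  unfold cnt
  rw [image_union]
  exact card_union_le _ _

lemma cnt_univ {D : Type} [DecidableEq D] [Fintype D] (r : Setoid D) :
    cnt r univ = Nat.card (Quotient r) := by
  classical
  unfold cnt
  rw [image_univ_of_surjective Quotient.mk_surjective, card_univ, Nat.card_eq_fintype_card]

variable {V : Type} [Fintype V] {G : SimpleGraph V} [DecidableRel G.Adj]

theorem cover_draw (hdeg : ∀ v, G.degree v ≤ 3) (M : PlaneMap G) {F : Set G.Dart}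
    (hF : M.IsFaceCover F) {U : Type} (H : SimpleGraph U) (f : H →g G)
    (hf : Function.Injective f) : ∃ p, IsOuterApRAC H p := by
  classical
  have := M.conn.nonempty
  choose out o1 o2 using hF.once
  have nx : ∀ d, M.next d = M.rot d.symm := fun _ => rfl
  have on : ∀ v, M.next (out v) = out (out v).snd := fun v =>
    o2 _ _ ⟨hF.closed _ (o1 v).1, by rw [nx, M.rot_fst]; rfl⟩
  have oi : ∀ {v w}, out v = out w → v = w := fun {v w} e => by rw [← (o1 v).2, e, (o1 w).2]
  obtain ⟨σ, hs⟩ : ∃ σ : Perm V, ∀ v, σ v = (out v).snd :=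
    ⟨Equiv.ofBijective _ (Finite.injective_iff_bijective.1 fun v w (e : (out v).snd = (out w).snd) =>
      oi (M.next.injective (by rw [on, on, e]))), fun _ => rfl⟩
  have on' : ∀ v, M.next (out v) = out (σ v) := fun v => by rw [on, hs]
  have hσ : ∀ d, σ d ≠ d ∧ σ (σ d) ≠ d ∧ σ (σ (σ d)) ≠ d := fun d =>
    ⟨fun e => hF.long _ (o1 d).1 1 (by omega) (by omega) (by simp [on', e]),
      fun e => hF.long _ (o1 d).1 2 (by omega) (by omega) (by simp [pow_succ, on', e]),
      fun e => hF.long _ (o1 d).1 3 (by omega) (by omega) (by simp [pow_succ, on', e])⟩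
  obtain ⟨inn, hi⟩ : ∃ inn : V → G.Dart, ∀ v, inn (σ v) = (out v).symm :=
    ⟨fun v => (out (σ⁻¹ v)).symm, by simp⟩
  have i1 : ∀ v, (inn v).fst = v := fun v => by
    obtain ⟨v, rfl⟩ := σ.surjective v
    rw [hi, hs]; rfl
  have i2 : ∀ v, σ (inn v).snd = v := fun v => by
    obtain ⟨v, rfl⟩ := σ.surjective v
    rw [hi]; exact congrArg σ (o1 v).2
  have ri : ∀ v, M.rot (inn v) = out v := fun v => by
    obtain ⟨v, rfl⟩ := σ.surjective v
    rw [hi, ← nx, on']
  have io : ∀ v, inn v ≠ out v := fun v e => (hσ v).2.1 (by rw [hs v, ← e, i2])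
  have t1 : ∀ v, (M.rot (out v)).fst = v := fun v => by rw [M.rot_fst, (o1 v).2]
  have tn : ∀ v, M.rot (out v) ≠ out v := fun v e =>
    io v (M.rot.injective ((ri v).trans e.symm))
  have tt : ∀ v, M.rot (out v) ≠ inn v → M.rot (M.rot (out v)) = inn v := by
    intro v h
    by_contra h'
    have h1 : ({M.rot (M.rot (out v)), M.rot (out v), out v, inn v} : Finset G.Dart) ⊆
        univ.filter fun d => d.fst = v := by
      intro d hd
      simp only [mem_insert, mem_singleton] at hd
      rcases hd with rfl | rfl | rfl | rfl <;> simp [M.rot_fst, (o1 v).2, i1]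
    have h2 := card_le_card h1
    rw [G.dart_fst_fiber_card_eq_degree, card_insert_of_notMem, card_insert_of_notMem,
      card_pair (io v).symm] at h2
    · have := hdeg v; omega
    · simp [tn, h]
    · have h3 : M.rot (M.rot (out v)) ≠ out v := fun e =>
        h (M.rot.injective (e.trans (ri v).symm))
      simp [tn, h', h3]
  have cls : ∀ d : G.Dart, d = out d.fst ∨ d = inn d.fst ∨
      (d = M.rot (out d.fst) ∧ d ≠ inn d.fst) := fun d => by
    have : d = out d.fst ∨ d = inn d.fst ∨ d = M.rot (out d.fst) := by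
      refine sc_ind (P := fun e => e = out d.fst ∨ e = inn d.fst ∨ e = M.rot (out d.fst))
        (M.rot_cyc _ d (o1 _).2) (Or.inl rfl) ?_
      rintro _ (rfl | rfl | rfl)
      · exact Or.inr (Or.inr rfl)
      · exact Or.inl (ri _)
      · by_cases e : M.rot (out d.fst) = inn d.fst
        · rw [e]; exact Or.inl (ri _)
        · exact Or.inr (Or.inl (tt _ e))
    tauto
  obtain ⟨a, a1, a2⟩ : ∃ a : V → V, (∀ v, M.rot (out v) = inn v → a v = v) ∧
      ∀ v, M.rot (out v) ≠ inn v → a v = (M.rot (out v)).snd :=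
    ⟨fun v => if M.rot (out v) = inn v then v else (M.rot (out v)).snd, fun v h => if_pos h,
      fun v h => if_neg h⟩
  have a3 : ∀ v, M.rot (out v) ≠ inn v →
      (M.rot (out v)).symm = M.rot (out (a v)) ∧ M.rot (out (a v)) ≠ inn (a v) := by
    intro v h
    have e : (M.rot (out v)).symm.fst = a v := (a2 v h).symm
    rcases cls (M.rot (out v)).symm with c | c | c <;> rw [e] at c
    · have c' : M.rot (out v) = inn (σ (a v)) := by rw [hi, ← c]; rfl
      have : v = σ (a v) := by rw [← i1 (σ (a v)), ← c', t1]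
      exact absurd (c'.trans (by rw [← this])) h
    · obtain ⟨w, hw⟩ := σ.surjective (a v)
      rw [← hw, hi] at c
      have c' := SimpleGraph.Dart.symm_involutive.injective c
      have : v = w := by rw [← (o1 w).2, ← c', t1]
      exact absurd (this ▸ c') (tn v)
    · exact ⟨c.1, c.1 ▸ c.2⟩
  have inv : ∀ v, a (a v) = v := fun v => by
    by_cases h : M.rot (out v) = inn v
    · rw [a1 v h, a1 v h]
    · rw [a2 _ (a3 v h).2, ← (a3 v h).1]; exact t1 v
  set α : Perm V := Function.Involutive.toPerm a inv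
  have aa : ∀ v, α v = a v := fun _ => rfl
  have np : ∀ v, α v ≠ σ v := fun v e => by
    by_cases h : M.rot (out v) = inn v
    · exact (hσ v).1 (by rw [← e, aa, a1 v h])
    · refine tn v (SimpleGraph.Dart.ext _ _ (Prod.ext ((t1 v).trans (o1 v).2.symm) ?_))
      rw [← a2 v h, ← hs, ← e, aa]
  have adj : ∀ u v, G.Adj u v → α u = v ∨ σ u = v ∨ σ v = u := fun u v h => by
    rcases cls ⟨(u, v), h⟩ with c | c | c
    · exact Or.inr (Or.inl ((hs u).trans (congrArg (·.snd) c).symm))
    · exact Or.inr (Or.inr ((congrArg (fun d : G.Dart => σ d.snd) c).trans (i2 u)))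
    · exact Or.inl ((a2 u (c.1 ▸ c.2)).trans (congrArg (·.snd) c.1).symm)
  have hc : ∀ u v, conn α σ u v := fun u v => by
    obtain ⟨w⟩ := M.conn.preconnected u v
    induction w with
    | nil => exact (conn α σ).refl _
    | cons h _ ih =>
      refine (conn α σ).trans ?_ ih
      rcases adj _ _ h with rfl | rfl | rfl
      exacts [conn_a _ _ _, conn_f _ _ _, (conn α σ).symm (conn_f _ _ _)]
  refine map_draw hσ inv np ?_ hc H f hf fun u v h => adj _ _ (f.map_adj h)
  have g1 := genus σ univ (fun _ _ => mem_univ _) _ α (fun z _ => ⟨mem_univ _, inv z⟩) rfl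
  have g2 : cnt (conn α σ) univ ≤ 1 := by
    obtain ⟨v⟩ := this
    have := cnt_le_of (r := conn α σ) (U := univ) (X := insert v ∅)
      fun x _ => ⟨v, mem_insert_self _ _, hc x v⟩
    rwa [cnt_insert (by simp), cnt_empty] at this
  have n1 : ∀ v, M.next (inn (σ v)) = M.rot (out v) := fun v => by rw [hi]; rfl
  have n2 : ∀ v, M.rot (out v) ≠ inn v → M.next (M.rot (out v)) = inn (a v) := fun v h => by
    rw [nx, (a3 v h).1, tt _ (a3 v h).2]
  have g3 : cnt (sc M.next) univ ≤ cnt (sc M.next) (univ.image out ∪ univ.image inn) := by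
    refine cnt_le_of fun d _ => ?_
    rcases cls d with c | c | c
    · exact ⟨d, by rw [c]; simp, (sc _).refl d⟩
    · exact ⟨d, by rw [c]; simp, (sc _).refl d⟩
    · exact ⟨inn (a d.fst), by simp, by
        rw [← n2 _ (c.1 ▸ c.2), ← c.1]; exact sc_step _ _⟩
  have g4 := cnt_union_le (sc M.next) (univ.image out) (univ.image inn)
  have g5 := cnt_image_le (sc σ) (sc M.next) out univ fun x y e =>
    sc_le ((sc M.next).comap out) (fun z => show M.next.SameCycle _ _ from on' z ▸ sc_step _ _) e
  have g6 := cnt_image_le (sc (σ * α)) (sc M.next) inn univ fun x y e =>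
    sc_le ((sc M.next).comap inn) (fun z => show M.next.SameCycle (inn z) (inn (σ (a z))) from by
      have s := sc_step M.next (inn (σ (a z)))
      rw [n1] at s
      by_cases h : M.rot (out (a z)) = inn (a z)
      · have e : a z = z := (a1 _ h).symm.trans (inv z)
        rw [h] at s
        nth_rw 1 [← e]
        exact s.symm
      · have s' := sc_step M.next (M.rot (out (a z)))
        rw [n2 _ h, inv] at s'
        exact (s.trans s').symm) e
  have g7 : ∑ v : V, (2 + if α v ≠ v then 1 else 0) ≤ ∑ v, G.degree v := by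
    refine sum_le_sum fun v _ => ?_
    have b1 : G.Adj v (σ v) := by have := (out v).adj; rwa [(o1 v).2, ← hs] at this
    have b2 : G.Adj v (inn v).snd := by have := (inn v).adj; rwa [i1] at this
    have b3 : σ v ≠ (inn v).snd := fun e => (hσ v).2.1 (by rw [e, i2])
    rw [← G.card_neighborFinset_eq_degree]
    split_ifs with h
    · have b4 : G.Adj v (α v) := by
        have h' : M.rot (out v) ≠ inn v := fun e => h (a1 v e)
        have := (M.rot (out v)).adj
        rwa [t1, ← a2 v h'] at this
      have b5 : α v ≠ (inn v).snd := fun e => np (α v) (by rw [aa, aa, inv, ← aa, e, i2])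
      refine le_trans (le_of_eq ?_) (card_le_card (s := {α v, σ v, (inn v).snd}) ?_)
      · rw [card_insert_of_notMem (by simp [np, b5]), card_pair b3]
      · simp [insert_subset_iff, b1, b2, b4]
    · refine le_trans (le_of_eq ?_) (card_le_card (s := {σ v, (inn v).snd}) ?_)
      · rw [card_pair b3]
      · simp [insert_subset_iff, b1, b2]
  rw [G.sum_degrees_eq_twice_card_edges, sum_add_distrib, ← card_filter] at g7
  have g8 := M.euler
  rw [← cnt_univ, Nat.card_eq_fintype_card, Nat.card_eq_fintype_card, G.card_edgeSet] at g8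
  simp only [sum_const, card_univ, smul_eq_mul] at g7
  unfold Pl
  change _ + cnt (sc M.next) univ = _ at g8
  omega

end Pool.Agent.Lib.MP_b9d600_co
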