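import Mathlib

/-! Outer-apRAC drawings, plane graphs given by a rotation system, covers by faces. -/

namespace Pool.Agent.Lib.MP_b9d600_co

variable {V : Type}

/-- the points of the plane used by the straight-line drawing `p` of `G`: the vertex points and
the closed segments of the edges -/
def ink (G : SimpleGraph V) (p : V → ℝ × ℝ) : Set (ℝ × ℝ) :=
  Set.range p ∪ {z | ∃ u v, G.Adj u v ∧ z ∈ segment ℝ (p u) (p v)}

/-- `z` is a crossing of the edges `uv` and `xy`: a common point that is not a shared endpoint -/
def IsCrossing (p : V → ℝ × ℝ) (u v x y : V) (z : ℝ × ℝ) : Prop :=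
  z ∈ segment ℝ (p u) (p v) ∧ z ∈ segment ℝ (p x) (p y) ∧
    ¬∃ w, (w = u ∨ w = v) ∧ (w = x ∨ w = y) ∧ z = p w

/-- `p` is an outer-apRAC drawing of `G` -/
structure IsOuterApRAC (G : SimpleGraph V) (p : V → ℝ × ℝ) : Prop where
  /-- vertices are distinct points -/
  inj : Function.Injective p
  /-- no segment passes through a vertex other than its ends -/
  avoid : ∀ u v w, G.Adj u v → p w ∈ segment ℝ (p u) (p v) → w = u ∨ w = v
  /-- there is an unbounded cell with every vertex on its boundary -/
  outer : ∃ z, z ∉ ink G p ∧ ¬Bornology.IsBounded (connectedComponentIn (ink G p)ᶜ z) ∧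
    ∀ v, p v ∈ frontier (connectedComponentIn (ink G p)ᶜ z)
  /-- two different edges that cross are perpendicular -/
  right : ∀ u v x y z, G.Adj u v → G.Adj x y → s(u, v) ≠ s(x, y) → IsCrossing p u v x y z →
    ((p v).1 - (p u).1) * ((p y).1 - (p x).1) + ((p v).2 - (p u).2) * ((p y).2 - (p x).2) = 0
  /-- an edge that has a crossing has slope `1` or `-1` -/
  slope : ∀ u v x y z, G.Adj u v → G.Adj x y → s(u, v) ≠ s(x, y) → IsCrossing p u v x y z →
    (p v).2 - (p u).2 = (p v).1 - (p u).1 ∨ (p v).2 - (p u).2 = -((p v).1 - (p u).1)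

/-- reversal of darts -/
def rev (G : SimpleGraph V) : Equiv.Perm G.Dart :=
  Function.Involutive.toPerm SimpleGraph.Dart.symm SimpleGraph.Dart.symm_involutive

/-- An embedding of a connected finite graph in the sphere, given by a rotation system: `rot`
permutes the darts leaving each vertex cyclically, the faces are the orbits of
`d ↦ rot (reverse of d)`, and Euler's formula `|V| - |E| + |F| = 2` holds. -/
structure PlaneMap (G : SimpleGraph V) where
  conn : G.Connected
  rot : Equiv.Perm G.Dart
  rot_fst : ∀ d, (rot d).fst = d.fst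
  rot_cyc : ∀ d e : G.Dart, d.fst = e.fst → rot.SameCycle d e
  euler : Nat.card V + Nat.card (Quotient (Equiv.Perm.SameCycle.setoid (rot * rev G))) =
    Nat.card G.edgeSet + 2

/-- the next dart along a face -/
def PlaneMap.next {G : SimpleGraph V} (M : PlaneMap G) : Equiv.Perm G.Dart := M.rot * rev G

/-- `F` is the set of darts of a family of faces of length at least four whose boundary walks
together pass through every vertex exactly once -/
structure PlaneMap.IsFaceCover {G : SimpleGraph V} (M : PlaneMap G) (F : Set G.Dart) : Prop where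
  closed : ∀ d ∈ F, M.next d ∈ F
  long : ∀ d ∈ F, ∀ k, 0 < k → k < 4 → (M.next ^ k) d ≠ d
  once : ∀ v, ∃! d, d ∈ F ∧ d.fst = v

end Pool.Agent.Lib.MP_b9d600_co
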