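import Pool.Agent.Lib.MP_b9d600_co.Defs

/-! An x-monotone drawing in which every vertex lies above the edges that pass under it. -/

namespace Pool.Agent.Lib.MP_b9d600_co

open Set

variable {V : Type}

/-- signed height of `z` over the line through `a`, `b` -/
def ht (a b z : ℝ × ℝ) : ℝ := (z.2 - a.2) * (b.1 - a.1) - (b.2 - a.2) * (z.1 - a.1)

lemma ht_seg {a b z : ℝ × ℝ} (h : z ∈ segment ℝ a b) : ht a b z = 0 := by
  obtain ⟨s, t, -, -, hst, rfl⟩ := h
  obtain rfl : s = 1 - t := by linarith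
  simp only [ht, Prod.fst_add, Prod.snd_add, Prod.smul_fst, Prod.smul_snd, smul_eq_mul]
  ring

lemma seg_fst {a b z : ℝ × ℝ} (hab : a.1 < b.1) (h : z ∈ segment ℝ a b) :
    a.1 ≤ z.1 ∧ z.1 ≤ b.1 ∧ (z.1 = a.1 → z = a) ∧ (z.1 = b.1 → z = b) := by
  obtain ⟨s, t, hs, ht, hst, rfl⟩ := h
  obtain rfl : s = 1 - t := by linarith
  simp only [Prod.fst_add, Prod.smul_fst, smul_eq_mul]
  refine ⟨by nlinarith, by nlinarith, fun e => ?_, fun e => ?_⟩
  · have : t * (b.1 - a.1) = 0 := by linarith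
    obtain rfl : t = 0 := by
      rcases mul_eq_zero.1 this with h | h
      · exact h
      · linarith
    simp
  · have : (1 - t) * (b.1 - a.1) = 0 := by linarith
    obtain rfl : t = 1 := by
      rcases mul_eq_zero.1 this with h | h
      · linarith
      · linarith
    simp

/-- a segment whose ends are on or over a line meets it only in an end that is on it -/
lemma seg_over {a b c d z : ℝ × ℝ} (hz : z ∈ segment ℝ c d) (h0 : ht a b z = 0)
    (hc : 0 ≤ ht a b c) (hd : 0 < ht a b d) : z = c := by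
  obtain ⟨s, t, hs, ht', hst, rfl⟩ := hz
  obtain rfl : s = 1 - t := by linarith
  have e : ht a b ((1 - t) • c + t • d) = (1 - t) * ht a b c + t * ht a b d := by
    simp only [ht, Prod.fst_add, Prod.snd_add, Prod.smul_fst, Prod.smul_snd, smul_eq_mul]
    ring
  rw [e] at h0
  have h1 := mul_nonneg hs hc
  have h2 := mul_nonneg ht' hd.le
  have h3 : t * ht a b d = 0 := by linarith
  obtain rfl : t = 0 := by
    rcases mul_eq_zero.1 h3 with h | h
    · exact h
    · linarith
  simp

theorem geo [Finite V] (G : SimpleGraph V) (p : V → ℝ × ℝ)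
    (hi : Function.Injective fun v => (p v).1)
    (ha : ∀ u v w, G.Adj u v → (p u).1 < (p w).1 → (p w).1 < (p v).1 → 0 < ht (p u) (p v) (p w))
    (hx : ∀ a b c d, G.Adj a b → G.Adj c d → (p a).1 < (p c).1 → (p c).1 < (p b).1 →
      (p b).1 < (p d).1 → (p b).2 - (p a).2 = (p b).1 - (p a).1 ∧
        (p d).2 - (p c).2 = -((p d).1 - (p c).1)) : IsOuterApRAC G p := by
  have hi' : ∀ {u v}, (p u).1 = (p v).1 → u = v := fun e => hi e
  have hne : ∀ {u v}, G.Adj u v → (p u).1 < (p v).1 ∨ (p v).1 < (p u).1 := fun h =>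
    lt_or_gt_of_ne fun e => h.ne (hi' e)
  -- points over a vertex
  have up : ∀ u v w (t : ℝ), G.Adj u v → (p u).1 < (p v).1 → 0 ≤ t →
      ((p w).1, (p w).2 + t) ∈ segment ℝ (p u) (p v) → t = 0 ∧ (w = u ∨ w = v) := by
    intro u v w t huv hlt ht0 hz
    obtain ⟨h1, h2, h3, h4⟩ := seg_fst hlt hz
    have h0 := ht_seg hz
    rcases h1.eq_or_lt with h1 | h1
    · obtain rfl := hi' h1
      have := congrArg Prod.snd (h3 rfl)
      exact ⟨by simpa using this, Or.inl rfl⟩
    rcases h2.eq_or_lt with h2 | h2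
    · obtain rfl := hi' h2
      have := congrArg Prod.snd (h4 rfl)
      exact ⟨by simpa using this, Or.inr rfl⟩
    have h5 := ha u v w huv h1 h2
    simp only [ht] at h0 h5
    nlinarith [mul_nonneg ht0 (sub_pos.2 hlt).le]
  have up' : ∀ u v w (t : ℝ), G.Adj u v → 0 ≤ t →
      ((p w).1, (p w).2 + t) ∈ segment ℝ (p u) (p v) → t = 0 ∧ (w = u ∨ w = v) := by
    intro u v w t huv ht0 hz
    rcases hne huv with h | h
    · exact up u v w t huv h ht0 hz
    · rw [segment_symm] at hz
      exact (up v u w t huv.symm h ht0 hz).imp_right Or.symm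
  -- crossings
  have cr0 : ∀ a b c d z, G.Adj a b → G.Adj c d → (p a).1 < (p b).1 → (p c).1 < (p d).1 →
      (p a).1 ≤ (p c).1 → ((p a).1 = (p c).1 → (p d).1 ≤ (p b).1) → s(a, b) ≠ s(c, d) →
      IsCrossing p a b c d z → (p b).2 - (p a).2 = (p b).1 - (p a).1 ∧
        (p d).2 - (p c).2 = -((p d).1 - (p c).1) := by
    intro a b c d z hab hcd l1 l2 l3 l4 hn ⟨z1, z2, z3⟩
    obtain ⟨a1, a2, a3, a4⟩ := seg_fst l1 z1
    obtain ⟨c1, c2, c3, c4⟩ := seg_fst l2 z2
    have h0 := ht_seg z1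
    have hcb : (p c).1 < (p b).1 := by
      rcases (c1.trans a2).eq_or_lt with e | e
      · obtain rfl := hi' e
        exact absurd ⟨c, Or.inr rfl, Or.inl rfl, c3 (le_antisymm a2 c1)⟩ z3
      · exact e
    rcases lt_trichotomy (p b).1 (p d).1 with e | e | e
    · rcases l3.eq_or_lt with e' | e'
      · exact absurd (l4 e') (not_le.2 e)
      · exact hx a b c d hab hcd e' hcb e
    · obtain rfl := hi' e
      rcases l3.eq_or_lt with e' | e'
      · obtain rfl := hi' e'
        exact absurd rfl hn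
      · rw [segment_symm] at z2
        exact absurd ⟨b, Or.inr rfl, Or.inr rfl,
          seg_over z2 h0 (by simp [ht, mul_comm]) (ha a b c hab e' hcb)⟩ z3
    · have hd := ha a b d hab (l3.trans_lt l2) e
      rcases l3.eq_or_lt with e' | e'
      · obtain rfl := hi' e'
        exact absurd ⟨a, Or.inl rfl, Or.inl rfl, seg_over z2 h0 (by simp [ht]) hd⟩ z3
      · have hc := ha a b c hab e' hcb
        have := seg_over z2 h0 hc.le hd
        rw [this] at h0
        exact absurd h0 hc.ne'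
  have sw1 : ∀ {a b c d z}, IsCrossing p a b c d z → IsCrossing p b a c d z :=
    fun ⟨z1, z2, z3⟩ => ⟨by rwa [segment_symm], z2, fun ⟨w, h1, h2⟩ => z3 ⟨w, h1.symm, h2⟩⟩
  have sw2 : ∀ {a b c d z}, IsCrossing p a b c d z → IsCrossing p c d a b z :=
    fun ⟨z1, z2, z3⟩ => ⟨z2, z1, fun ⟨w, h1, h2, h3⟩ => z3 ⟨w, h2, h1, h3⟩⟩
  let Q : V → V → V → V → Prop := fun a b c d =>
    ((p b).2 - (p a).2 = (p b).1 - (p a).1 ∧ (p d).2 - (p c).2 = -((p d).1 - (p c).1)) ∨
    ((p d).2 - (p c).2 = (p d).1 - (p c).1 ∧ (p b).2 - (p a).2 = -((p b).1 - (p a).1))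
  have cr1 : ∀ a b c d z, G.Adj a b → G.Adj c d → (p a).1 < (p b).1 → (p c).1 < (p d).1 →
      s(a, b) ≠ s(c, d) → IsCrossing p a b c d z → Q a b c d := by
    intro a b c d z hab hcd l1 l2 hn hz
    rcases lt_trichotomy (p a).1 (p c).1 with e | e | e
    · exact Or.inl (cr0 a b c d z hab hcd l1 l2 e.le (fun h => absurd h e.ne) hn hz)
    · rcases le_total (p d).1 (p b).1 with e' | e'
      · exact Or.inl (cr0 a b c d z hab hcd l1 l2 e.le (fun _ => e') hn hz)
      · exact Or.inr (cr0 c d a b z hcd hab l2 l1 e.ge (fun _ => e') hn.symm (sw2 hz))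
    · exact Or.inr (cr0 c d a b z hcd hab l2 l1 e.le (fun h => absurd h e.ne) hn.symm (sw2 hz))
  have q1 : ∀ {a b c d}, Q a b c d → Q b a c d := by
    rintro a b c d (⟨h1, h2⟩ | ⟨h1, h2⟩)
    · exact Or.inl ⟨by linarith, h2⟩
    · exact Or.inr ⟨h1, by linarith⟩
  have q2 : ∀ {a b c d}, Q a b c d → Q c d a b := fun h => Or.symm h
  have cr2 : ∀ a b c d z, G.Adj a b → G.Adj c d → (p c).1 < (p d).1 →
      s(a, b) ≠ s(c, d) → IsCrossing p a b c d z → Q a b c d := by
    intro a b c d z hab hcd l2 hn hz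
    rcases hne hab with l1 | l1
    · exact cr1 a b c d z hab hcd l1 l2 hn hz
    · exact q1 (cr1 b a c d z hab.symm hcd l1 l2 (by rwa [Sym2.eq_swap]) (sw1 hz))
  have cr : ∀ a b c d z, G.Adj a b → G.Adj c d → s(a, b) ≠ s(c, d) → IsCrossing p a b c d z →
      Q a b c d := by
    intro a b c d z hab hcd hn hz
    rcases hne hcd with l2 | l2
    · exact cr2 a b c d z hab hcd l2 hn hz
    · exact q2 (q1 (q2 (cr2 a b d c z hab hcd.symm l2 (by rwa [Sym2.eq_swap (a := d)])
        (sw2 (sw1 (sw2 hz))))))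
  refine ⟨fun u v e => hi' (by rw [e]), fun u v w huv hz => (up' u v w 0 huv le_rfl
    (by simpa using hz)).2, ?_, fun u v x y z h1 h2 h3 h4 => ?_, fun u v x y z h1 h2 h3 h4 => ?_⟩
  · obtain ⟨M, hM⟩ := (Set.finite_range fun v => (p v).2).bddAbove
    have hM' : ∀ v, (p v).2 ≤ M := fun v => hM ⟨v, rfl⟩
    have hT : {z : ℝ × ℝ | M < z.2} ⊆ (ink G p)ᶜ := by
      rintro z hz (⟨v, rfl⟩ | ⟨u, v, -, s, t, hs, ht', hst, rfl⟩)
      · exact absurd (hM' v) (not_le.2 hz)
      · simp only [mem_ofPred_eq, Prod.snd_add, Prod.smul_snd, smul_eq_mul] at hz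
        have := mul_le_mul_of_nonneg_left (hM' u) hs
        have := mul_le_mul_of_nonneg_left (hM' v) ht'
        have : s * M + t * M = M := by rw [← add_mul, hst, one_mul]
        linarith
    have hTc : IsPreconnected {z : ℝ × ℝ | M < z.2} :=
      (convex_halfSpace_gt (LinearMap.snd ℝ ℝ ℝ).isLinear M).isPreconnected
    have z0 : ((0 : ℝ), M + 1) ∈ {z : ℝ × ℝ | M < z.2} := by simp
    refine ⟨(0, M + 1), hT z0, fun hb => ?_, fun v => ?_⟩
    · obtain ⟨C, hC⟩ := (hb.subset (hTc.subset_connectedComponentIn z0 hT)).exists_norm_le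
      have := hC (0, |M| + |C| + 1) (by
        simp only [mem_ofPred_eq]
        have := le_abs_self M
        have := abs_nonneg C
        linarith)
      have h2 := (norm_snd_le ((0 : ℝ), |M| + |C| + 1)).trans this
      have h3 := le_abs_self (|M| + |C| + 1)
      have := abs_nonneg M
      have := le_abs_self C
      simp only [Real.norm_eq_abs] at h2
      linarith
    · let g : ℝ → ℝ × ℝ := fun t => ((p v).1, (p v).2 + t)
      have hg : Continuous g := by fun_prop
      have hR : g '' Ioi 0 ⊆ (ink G p)ᶜ := by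
        rintro _ ⟨t, ht0, rfl⟩ (⟨w, e⟩ | ⟨a, b, hab, hz⟩)
        · have e1 : (p w).1 = (p v).1 := by rw [e]
          obtain rfl := hi' e1
          have e2 : (p w).2 = (g t).2 := by rw [e]
          simp only [g] at e2
          exact absurd (show t = 0 by linarith) (ne_of_gt ht0)
        · exact absurd (up' a b v t hab (le_of_lt ht0) hz).1 (ne_of_gt ht0)
      have hRc : IsPreconnected (g '' Ioi 0) := isPreconnected_Ioi.image g hg.continuousOn
      have hU : IsPreconnected ({z : ℝ × ℝ | M < z.2} ∪ g '' Ioi 0) :=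
        IsPreconnected.union (g (M - (p v).2 + 1)) (by simp only [g, mem_ofPred_eq]; linarith)
          ⟨_, by have := hM' v; simp only [mem_Ioi]; linarith, rfl⟩ hTc hRc
      have hS := hU.subset_connectedComponentIn (Or.inl z0) (union_subset hT hR)
      refine ⟨closure_mono (subset_union_right.trans hS) ?_, fun h => ?_⟩
      · have : g 0 ∈ closure (g '' Ioi 0) :=
          image_closure_subset_closure_image hg ⟨0, by simp, rfl⟩
        simpa [g] using this
      · exact connectedComponentIn_subset _ _ (interior_subset h) (Or.inl ⟨v, rfl⟩)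
  · rcases cr u v x y z h1 h2 h3 h4 with ⟨e1, e2⟩ | ⟨e1, e2⟩ <;> rw [e1, e2] <;> ring
  · rcases cr u v x y z h1 h2 h3 h4 with ⟨e1, -⟩ | ⟨-, e2⟩
    · exact Or.inl e1
    · exact Or.inr e2

end Pool.Agent.Lib.MP_b9d600_co
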