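import Pool.Agent.Lib.MP_b9d600_co.Rec

/-! The graph of a plane map whose vertices are blown up to cycles has an outer-apRAC drawing. -/

namespace Pool.Agent.Lib.MP_b9d600_co

open Equiv Equiv.Perm Finset Relation Pool.Agent.Lib.MP_abd955_pr

variable {D : Type} [DecidableEq D] [Fintype D]

theorem map_draw [Nonempty D] {σ α : Perm D}
    (hσ : ∀ d, σ d ≠ d ∧ σ (σ d) ≠ d ∧ σ (σ (σ d)) ≠ d) (inv : ∀ d, α (α d) = d)
    (np : ∀ d, α d ≠ σ d) (pl : Pl σ α) (hc : ∀ a b, conn α σ a b)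
    {V : Type} (H : SimpleGraph V) (φ : V → D) (hφ : Function.Injective φ)
    (hH : ∀ u v, H.Adj u v → α (φ u) = φ v ∨ σ (φ u) = φ v ∨ σ (φ v) = φ u) :
    ∃ p, IsOuterApRAC H p := by
  classical
  have hσ1 : ∀ d, σ d ≠ d := fun d => (hσ d).1
  have fin : ∀ {x pos N}, Lay univ α (RB σ True x) pos N → ∃ p, IsOuterApRAC H p := fun L =>
    L.draw (fun _ _ => False) (fun _ _ h => h.elim) H φ hφ fun u v h _ => (hH u v h).imp_right
      fun h => Or.inl (h.imp (fun h => ⟨h, Or.inl trivial⟩) fun h => ⟨h, Or.inl trivial⟩)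
  by_cases hf : ∃ q, α q = q
  · obtain ⟨q, hq⟩ := hf
    obtain ⟨p, N, O⟩ := exists_outp hσ _ _ _ _ _ _ rfl
      (hyp_new (K := univ) pl inv np hq True fun y => by simp [hc])
    exact fin O.lay
  push Not at hf
  obtain ⟨g, hg⟩ := exists_out inv pl np hf
  obtain ⟨q, rfl⟩ := σ.surjective g
  obtain ⟨γ, C⟩ := exists_cut inv pl (hf q)
  have np' := C.np hσ1 np
  by_cases hb : (σ * α).SameCycle q (α q)
  · have nc := (C.br hb).1
    set K := univ.filter (conn γ σ (α q))
    set U := univ.filter (conn γ σ q)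
    have mK : ∀ y, y ∈ K ↔ conn γ σ (α q) y := by simp [K]
    have mU : ∀ y, y ∈ U ↔ conn γ σ q y := by simp [U]
    have hd : Disjoint K U := disjoint_left.2 fun y h h' =>
      nc ((conn γ σ).trans ((mU y).1 h') ((conn γ σ).symm ((mK y).1 h)))
    have hu : K ∪ U = univ := eq_univ_of_forall fun y => by
      rw [mem_union, mK, mU]
      rcases (C.join q y).1 (hc q y) with h | h | h
      exacts [Or.inr h, Or.inl h.2, absurd h.1 nc]
    have H1 := hyp_new C.pl C.inv np' C.fp True mK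
    have H2 := hyp_new C.pl C.inv np' C.fx True mU
    obtain ⟨p1, N1, O1⟩ := exists_outp hσ _ _ _ _ _ _ rfl H1
    obtain ⟨p2, N2, O2⟩ := exists_outp hσ _ _ _ _ _ _ rfl H2
    have a1 := C.hA inv (Or.inl (disjoint_right.1 hd H2.qW))
    have a2 := C.hA inv (Or.inr (disjoint_left.1 hd H1.qW))
    have noR : ∀ c ∈ K, ∀ d ∈ U, ¬RB σ True (σ⁻¹ q) c d := by
      rintro c hc d hd' (⟨rfl, -⟩ | ⟨rfl, -⟩)
      · exact disjoint_left.1 hd ((mK _).2 ((conn γ σ).trans ((mK c).1 hc) (conn_f γ σ c))) hd'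
      · exact disjoint_left.1 hd hc ((mU _).2 ((conn γ σ).trans ((mU d).1 hd') (conn_f γ σ d)))
    have L := (O1.lay.mono (R' := RB σ True (σ⁻¹ q)) Subset.rfl a1 fun _ _ _ _ _ h =>
      h.imp (fun h => ⟨h.1, Or.inl trivial⟩) fun h => ⟨h.1, Or.inl trivial⟩).append
      (O2.lay.mono Subset.rfl a2 fun _ _ _ _ _ h => h) hd
      (fun a ha h => by
        obtain rfl : a = α q := by
          by_contra e
          rw [← C.eq a (fun e => disjoint_left.1 hd ha (e ▸ H2.qW)) e] at h
          exact disjoint_left.1 hd ((mK _).2 ((conn γ σ).trans ((mK a).1 ha) (conn_a γ σ a))) h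
        rw [inv]
        exact ⟨O1.last, fun _ => (O2.fr q H2.qW C.fx (SameCycle.refl _ _)).mono Subset.rfl a2⟩)
      (fun c hc d hd h => absurd h (noR c hc d hd)) fun c hc d hd _ _ h => absurd h (noR c hc d hd)
    rw [hu] at L
    exact fin L
  obtain ⟨c1, c2⟩ := C.nb hb
  have H1 := hyp_new (K := univ) C.pl C.inv np' C.fx False fun y => by
    simp only [mem_univ, true_iff]
    rcases (C.join q y).1 (hc q y) with h | h | h
    exacts [h, (conn γ σ).trans c1 h.2, h.2]
  obtain ⟨p, N, O⟩ := exists_outp hσ _ _ _ _ _ _ rfl H1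
  set x := σ⁻¹ q with hx
  have e : σ x = q := by simp [hx]
  have xq : x ≠ q := fun h => hσ1 q (by rw [← h, e, h])
  have x0 : p x = 0 := O.top (Or.inr ⟨fun h => (hσ q).2.1 (by rw [← h, e]), id⟩)
  have g1 := O.one xq
  have a2 := C.hA inv (S := univ.erase q) (Or.inl (by simp))
  have L0 : Lay (univ.erase q) α (RB σ False q) p N := O.lay.mono (erase_subset _ _) a2 (by
    rintro a ha b hb - (⟨h, -⟩ | ⟨h, -⟩)
    · exact Or.inl ⟨h, Or.inr fun c => (mem_erase.1 hb).1 (by rw [← h, c, e])⟩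
    · exact Or.inr ⟨h, Or.inr fun c => (mem_erase.1 ha).1 (by rw [← h, c, e])⟩)
  have L1 : Lay (univ.erase q) α (RB σ False q) p (N - 1) := ⟨fun d hd => by
    have h1 := O.lay.lt d (mem_univ _)
    have h2 := O.last
    have h3 : p d ≠ p q := fun c => (mem_erase.1 hd).1 (O.lay.inj d (mem_univ _) q (mem_univ _) c)
    omega, L0.inj, L0.aa, L0.bb, L0.bo, L0.ab⟩
  have hd : Disjoint {q} (univ.erase q) := by simp
  have rq : ∀ d, RB σ False q q d → d = x := by
    rintro d (h | h)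
    · simp at h
    · exact σ.injective (h.1.trans e.symm)
  have sp : (σ * γ).SameCycle q (α q) := by
    have h1 := sc_step (σ * γ) (α q)
    rw [mul_apply, C.fp] at h1
    exact (c2 _ _ (sc_step (σ * α) q)).trans h1.symm
  have cA : ∀ a ∈ ({q} : Finset D), α a ∈ univ.erase q → 0 + 1 = 1 ∧
      (p (α a) ≠ 0 → Fr (univ.erase q) (RA α) p (α a)) := fun a ha _ => by
    obtain rfl := mem_singleton.1 ha
    exact ⟨rfl, fun _ => (O.fr _ (mem_univ _) C.fp sp).mono (erase_subset _ _) a2⟩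
  have L := (Lay.single q α (RB σ False q)).append L1 hd cA
    (fun a ha d _ h => by
      obtain rfl := mem_singleton.1 ha
      exact ⟨rfl, fun h0 => absurd (rq d h ▸ x0) h0⟩)
    fun a ha d _ d' _ h h' _ _ => by
      obtain rfl := mem_singleton.1 ha
      rw [rq d h, rq d' h']
  have hu : {q} ∪ univ.erase q = univ := by rw [← insert_eq, insert_erase (mem_univ q)]
  have m : ∀ {y}, y ≠ q → y ∈ univ.erase q := fun h => by simpa using h
  have q0 : cat {q} (fun _ => 0) 1 p q = 0 := cat_l (mem_singleton_self q)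
  refine (hu ▸ L).draw (fun f g => f = q ∧ g = σ q) ?_ H φ hφ fun u v h l => ?_
  · rintro f _ ⟨rfl, rfl⟩
    refine ⟨q0, by rw [cat_r hd (m (hσ1 f))]; omega, fun d c => ?_, fun a c => ?_⟩
    · have := c.2.2.2
      rw [q0, rq d c.2.2.1, cat_r hd (m xq)] at this
      omega
    · rw [← hu] at c
      rcases ch_cat hd (fun _ _ => one_pos) (fun _ _ _ _ _ => rfl) c with
        ⟨c, -⟩ | ⟨c, -⟩ | ⟨⟨c1, -, c3⟩, -⟩
      · exact absurd c.2.2.2 (by simp)
      · refine hg ?_
        have h1 := O.ca a (c.mono (erase_subset _ _) a2)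
        rw [← show α a = σ f from c.2.2.1, inv, show α a = σ f from c.2.2.1]
        exact (sc_step σ f).symm.trans h1
      · rw [mem_singleton.1 c1] at c3
        exact np f c3
  · rcases hH u v h with h | h | h
    · exact Or.inl h
    · by_cases c : φ u = q
      · exact Or.inr (Or.inr ⟨c, by rw [← h, c]⟩)
      · exact Or.inr (Or.inl (Or.inl ⟨h, Or.inr c⟩))
    · refine Or.inr (Or.inl (Or.inr ⟨h, Or.inr fun c => ?_⟩))
      rw [c, q0] at l
      omega

end Pool.Agent.Lib.MP_b9d600_co
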