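import Pool.Agent.Lib.MP_b9d600_co.Geo
import Pool.Agent.Lib.MP_b9d600_co.Coord

/-! Layouts: linear orders with two families of chords, their concatenation, their drawing. -/

namespace Pool.Agent.Lib.MP_b9d600_co

open Function

variable {D : Type} [DecidableEq D]

def Ch (W : Finset D) (R : D → D → Prop) (pos : D → ℕ) (a b : D) : Prop :=
  a ∈ W ∧ b ∈ W ∧ R a b ∧ pos a + 1 < pos b

def Fr (W : Finset D) (R : D → D → Prop) (pos : D → ℕ) (x : D) : Prop :=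
  ∀ a b, Ch W R pos a b → pos a < pos x → pos b < pos x

def RA (β : D → D) (a b : D) : Prop := β a = b

structure Lay (W : Finset D) (β : D → D) (R : D → D → Prop) (pos : D → ℕ) (N : ℕ) : Prop where
  lt : ∀ d ∈ W, pos d < N
  inj : ∀ d ∈ W, ∀ e ∈ W, pos d = pos e → d = e
  aa : ∀ a b a' b', Ch W (RA β) pos a b → Ch W (RA β) pos a' b' → pos a < pos a' →
    pos a' < pos b → pos b' < pos b
  bb : ∀ a b a' b', Ch W R pos a b → Ch W R pos a' b' → pos a < pos a' → pos a' < pos b →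
    pos b' < pos b
  bo : ∀ a b b', Ch W R pos a b → Ch W R pos a b' → b = b'
  ab : ∀ a b c d, Ch W (RA β) pos a b → Ch W R pos c d → pos c ≤ pos a → pos a < pos d →
    pos b < pos d

variable {W W1 W2 : Finset D} {β β' : D → D} {R R' : D → D → Prop} {pos p1 p2 : D → ℕ}
  {N N1 N2 : ℕ}

omit [DecidableEq D] in
lemma Ch.mono {a b : D} (h : Ch W1 R' pos a b) (hs : W1 ⊆ W)
    (hR : ∀ a ∈ W1, ∀ b ∈ W1, a ≠ b → R' a b → R a b) : Ch W R pos a b :=
  ⟨hs h.1, hs h.2.1, hR a h.1 b h.2.1 (fun e => by have := h.2.2.2; rw [e] at this; omega) h.2.2.1,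
    h.2.2.2⟩

omit [DecidableEq D] in
lemma Fr.mono {x : D} (h : Fr W R pos x) (hs : W1 ⊆ W)
    (hR : ∀ a ∈ W1, ∀ b ∈ W1, a ≠ b → R' a b → R a b) : Fr W1 R' pos x :=
  fun a b c => h a b (c.mono hs hR)

omit [DecidableEq D] in
lemma Lay.mono (L : Lay W β R pos N) (hs : W1 ⊆ W)
    (hA : ∀ a ∈ W1, ∀ b ∈ W1, a ≠ b → RA β' a b → RA β a b)
    (hR : ∀ a ∈ W1, ∀ b ∈ W1, a ≠ b → R' a b → R a b) : Lay W1 β' R' pos N :=
  ⟨fun d hd => L.lt d (hs hd), fun d hd e he => L.inj d (hs hd) e (hs he),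
    fun a b a' b' h h' => L.aa a b a' b' (h.mono hs hA) (h'.mono hs hA),
    fun a b a' b' h h' => L.bb a b a' b' (h.mono hs hR) (h'.mono hs hR),
    fun a b b' h h' => L.bo a b b' (h.mono hs hR) (h'.mono hs hR),
    fun a b c d h h' => L.ab a b c d (h.mono hs hA) (h'.mono hs hR)⟩

omit [DecidableEq D] in
lemma Lay.single (x : D) (β : D → D) (R : D → D → Prop) : Lay {x} β R (fun _ => 0) 1 :=
  ⟨fun _ _ => one_pos, fun d hd e he _ => by rw [Finset.mem_singleton.1 hd,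
      Finset.mem_singleton.1 he],
    fun _ _ _ _ h => absurd h.2.2.2 (by simp), fun _ _ _ _ h => absurd h.2.2.2 (by simp),
    fun _ _ _ h => absurd h.2.2.2 (by simp), fun _ _ _ _ h => absurd h.2.2.2 (by simp)⟩

def cat (W1 : Finset D) (p1 : D → ℕ) (N1 : ℕ) (p2 : D → ℕ) (d : D) : ℕ :=
  if d ∈ W1 then p1 d else N1 + p2 d

lemma cat_l {d : D} (h : d ∈ W1) : cat W1 p1 N1 p2 d = p1 d := if_pos h

lemma cat_r (hd : Disjoint W1 W2) {d : D} (h : d ∈ W2) : cat W1 p1 N1 p2 d = N1 + p2 d :=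
  if_neg (Finset.disjoint_right.1 hd h)

lemma ch_cat (hd : Disjoint W1 W2) (hl : ∀ d ∈ W1, p1 d < N1)
    (hc : ∀ a ∈ W1, ∀ b ∈ W2, R a b → p1 a + 1 = N1) {a b : D}
    (h : Ch (W1 ∪ W2) R (cat W1 p1 N1 p2) a b) :
    (Ch W1 R p1 a b ∧ cat W1 p1 N1 p2 a = p1 a ∧ cat W1 p1 N1 p2 b = p1 b ∧ p1 a + 1 < p1 b ∧
      p1 b < N1) ∨
    (Ch W2 R p2 a b ∧ cat W1 p1 N1 p2 a = N1 + p2 a ∧ cat W1 p1 N1 p2 b = N1 + p2 b) ∨
    ((a ∈ W1 ∧ b ∈ W2 ∧ R a b) ∧ cat W1 p1 N1 p2 a = p1 a ∧ cat W1 p1 N1 p2 b = N1 + p2 b ∧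
      p1 a + 1 = N1 ∧ p2 b ≠ 0) := by
  obtain ⟨ha, hb, hr, hp⟩ := h
  rcases Finset.mem_union.1 ha with ha | ha <;> rcases Finset.mem_union.1 hb with hb | hb
  · rw [cat_l ha, cat_l hb] at hp
    exact Or.inl ⟨⟨ha, hb, hr, hp⟩, cat_l ha, cat_l hb, hp, hl b hb⟩
  · rw [cat_l ha, cat_r hd hb] at hp
    have := hc a ha b hb hr
    exact Or.inr (Or.inr ⟨⟨ha, hb, hr⟩, cat_l ha, cat_r hd hb, this, by omega⟩)
  · rw [cat_r hd ha, cat_l hb] at hp
    have := hl b hb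
    omega
  · rw [cat_r hd ha, cat_r hd hb] at hp
    exact Or.inr (Or.inl ⟨⟨ha, hb, hr, by omega⟩, cat_r hd ha, cat_r hd hb⟩)

lemma fr_l (hd : Disjoint W1 W2) (hl : ∀ d ∈ W1, p1 d < N1)
    (hc : ∀ a ∈ W1, ∀ b ∈ W2, R a b → p1 a + 1 = N1) {x : D} (hx : x ∈ W1) (h : Fr W1 R p1 x) :
    Fr (W1 ∪ W2) R (cat W1 p1 N1 p2) x := by
  intro a b c
  have := hl x hx
  rw [cat_l hx]
  rcases ch_cat hd hl hc c with ⟨c, e1, e2, -⟩ | ⟨c, e1, e2⟩ | ⟨c, e1, e2, e3, -⟩ <;> rw [e1, e2]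
  · exact h a b c
  · omega
  · omega

lemma fr_r (hd : Disjoint W1 W2) (hl : ∀ d ∈ W1, p1 d < N1)
    (hc : ∀ a ∈ W1, ∀ b ∈ W2, R a b → p1 a + 1 = N1) {x : D} (hx : x ∈ W2) (h : Fr W2 R p2 x)
    (h' : ∀ a ∈ W1, ∀ b ∈ W2, R a b → p2 b ≠ 0 → p2 b < p2 x) :
    Fr (W1 ∪ W2) R (cat W1 p1 N1 p2) x := by
  intro a b c
  rw [cat_r hd hx]
  rcases ch_cat hd hl hc c with ⟨c, e1, e2, e3, e4⟩ | ⟨c, e1, e2⟩ | ⟨c, e1, e2, e3, e4⟩ <;>
    rw [e1, e2]
  · omega
  · have := h a b c; omega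
  · have := h' a c.1 b c.2.1 c.2.2 e4; omega

lemma Lay.append (L1 : Lay W1 β R p1 N1) (L2 : Lay W2 β R p2 N2) (hd : Disjoint W1 W2)
    (cA : ∀ a ∈ W1, β a ∈ W2 → p1 a + 1 = N1 ∧ (p2 (β a) ≠ 0 → Fr W2 (RA β) p2 (β a)))
    (cB : ∀ c ∈ W1, ∀ d ∈ W2, R c d → p1 c + 1 = N1 ∧ (p2 d ≠ 0 → Fr W2 (RA β) p2 d ∧
      Fr W2 R p2 d ∧ (β c ∈ W2 → p2 (β c) < p2 d)))
    (uB : ∀ c ∈ W1, ∀ d ∈ W2, ∀ d' ∈ W2, R c d → R c d' → p2 d ≠ 0 → p2 d' ≠ 0 → d = d') :
    Lay (W1 ∪ W2) β R (cat W1 p1 N1 p2) (N1 + N2) := by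
  have hA : ∀ a ∈ W1, ∀ b ∈ W2, RA β a b → p1 a + 1 = N1 := fun a ha b hb e =>
    (cA a ha (by rw [show β a = b from e]; exact hb)).1
  have hB : ∀ a ∈ W1, ∀ b ∈ W2, R a b → p1 a + 1 = N1 := fun a ha b hb e => (cB a ha b hb e).1
  refine ⟨fun d h => ?_, fun d h e h' => ?_, fun a b a' b' h h' => ?_, fun a b a' b' h h' => ?_,
    fun a b b' h h' => ?_, fun a b c d h h' => ?_⟩
  · rcases Finset.mem_union.1 h with h | h
    · rw [cat_l h]; have := L1.lt d h; omega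
    · rw [cat_r hd h]; have := L2.lt d h; omega
  · rcases Finset.mem_union.1 h with h | h <;> rcases Finset.mem_union.1 h' with h' | h'
    · rw [cat_l h, cat_l h']; exact L1.inj d h e h'
    · rw [cat_l h, cat_r hd h']; have := L1.lt d h; omega
    · rw [cat_r hd h, cat_l h']; have := L1.lt e h'; omega
    · rw [cat_r hd h, cat_r hd h']; exact fun q => L2.inj d h e h' (by omega)
  · rcases ch_cat hd L1.lt hA h with ⟨c, e1, e2, e3, e4⟩ | ⟨c, e1, e2⟩ | ⟨c, e1, e2, e3, e4⟩ <;>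
    rcases ch_cat hd L1.lt hA h' with ⟨c', g1, g2, g3, g4⟩ | ⟨c', g1, g2⟩ | ⟨c', g1, g2, g3, g4⟩ <;>
    rw [e1, e2, g1, g2] <;> try omega
    · exact L1.aa _ _ _ _ c c'
    · have := L2.aa _ _ _ _ c c'; omega
    · obtain ⟨c1, c2, c3⟩ := c
      obtain rfl : β a = b := c3
      have := (cA a c1 c2).2 e4 _ _ c'; omega
  · rcases ch_cat hd L1.lt hB h with ⟨c, e1, e2, e3, e4⟩ | ⟨c, e1, e2⟩ | ⟨c, e1, e2, e3, e4⟩ <;>
    rcases ch_cat hd L1.lt hB h' with ⟨c', g1, g2, g3, g4⟩ | ⟨c', g1, g2⟩ | ⟨c', g1, g2, g3, g4⟩ <;>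
    rw [e1, e2, g1, g2] <;> try omega
    · exact L1.bb _ _ _ _ c c'
    · have := L2.bb _ _ _ _ c c'; omega
    · have := ((cB a c.1 b c.2.1 c.2.2).2 e4).2.1 _ _ c'; omega
  · rcases ch_cat hd L1.lt hB h with ⟨c, e1, e2, e3, e4⟩ | ⟨c, e1, e2⟩ | ⟨c, e1, e2, e3, e4⟩ <;>
    rcases ch_cat hd L1.lt hB h' with ⟨c', g1, g2, g3, g4⟩ | ⟨c', g1, g2⟩ | ⟨c', g1, g2, g3, g4⟩ <;>
    try omega
    · exact L1.bo _ _ _ c c'
    · exact L2.bo _ _ _ c c'
    · exact uB a c.1 b c.2.1 b' c'.2.1 c.2.2 c'.2.2 e4 g4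
  · rcases ch_cat hd L1.lt hA h with ⟨c, e1, e2, e3, e4⟩ | ⟨c, e1, e2⟩ | ⟨c, e1, e2, e3, e4⟩ <;>
    rcases ch_cat hd L1.lt hB h' with ⟨c', g1, g2, g3, g4⟩ | ⟨c', g1, g2⟩ | ⟨c', g1, g2, g3, g4⟩ <;>
    rw [e1, e2, g1, g2] <;> try omega
    · exact L1.ab _ _ _ _ c c'
    · have := L2.ab _ _ _ _ c c'; omega
    · have := ((cB _ c'.1 d c'.2.1 c'.2.2).2 g4).1 _ _ c; omega
    · obtain ⟨c1, c2, c3⟩ := c
      obtain rfl : β a = b := c3
      obtain rfl := L1.inj a c1 _ c'.1 (by omega)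
      have := ((cB _ c'.1 d c'.2.1 c'.2.2).2 g4).2.2 c2; omega

theorem Lay.draw [Fintype D] (L : Lay Finset.univ β R pos N) (O : D → D → Prop)
    (hO : ∀ f g, O f g → pos f = 0 ∧ pos g + 1 = N ∧ (∀ d, ¬Ch Finset.univ R pos f d) ∧
      ∀ a, ¬Ch Finset.univ (RA β) pos a g)
    {V : Type} (H : SimpleGraph V) (φ : V → D) (hφ : Injective φ)
    (hH : ∀ u v, H.Adj u v → pos (φ u) < pos (φ v) →
      RA β (φ u) (φ v) ∨ R (φ u) (φ v) ∨ O (φ u) (φ v)) : ∃ p, IsOuterApRAC H p := by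
  have : Finite V := Finite.of_injective φ hφ
  have pi : ∀ {d e}, pos d = pos e → d = e := fun h =>
    L.inj _ (Finset.mem_univ _) _ (Finset.mem_univ _) h
  have pl : ∀ d, pos d < N := fun d => L.lt d (Finset.mem_univ _)
  let A : ℕ → ℕ → Prop := fun m n => ∃ a b, Ch Finset.univ (RA β) pos a b ∧ pos a = m ∧ pos b = n
  let B : ℕ → ℕ → Prop := fun m n => ∃ a b, Ch Finset.univ R pos a b ∧ pos a = m ∧ pos b = n
  have hC : Chords A B := by
    refine ⟨?_, ?_, ?_, ?_, ?_, ?_, ?_⟩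
    · rintro _ _ ⟨a, b, h, rfl, rfl⟩; have := h.2.2.2; omega
    · rintro _ _ ⟨a, b, h, rfl, rfl⟩; have := h.2.2.2; omega
    · rintro _ _ _ ⟨a, b, h, rfl, rfl⟩ ⟨a', b', h', e, rfl⟩
      obtain rfl := pi e
      rw [← show β a' = b from h.2.2.1, ← show β a' = b' from h'.2.2.1]
    · rintro _ _ _ ⟨a, b, h, rfl, rfl⟩ ⟨a', b', h', e, rfl⟩
      obtain rfl := pi e
      rw [L.bo _ _ _ h h']
    · rintro _ _ _ _ ⟨a, b, h, rfl, rfl⟩ ⟨a', b', h', rfl, rfl⟩; exact L.aa _ _ _ _ h h'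
    · rintro _ _ _ _ ⟨a, b, h, rfl, rfl⟩ ⟨a', b', h', rfl, rfl⟩; exact L.bb _ _ _ _ h h'
    · rintro _ _ _ _ ⟨a, b, h, rfl, rfl⟩ ⟨a', b', h', rfl, rfl⟩; exact L.ab _ _ _ _ h h'
  obtain ⟨X, Y, s, ae, ai, be, bi, oo⟩ : ∃ X Y : D → ℝ,
      (∀ i j, pos i < pos j → Y i - X i < Y j - X j) ∧
      (∀ a b, Ch Finset.univ (RA β) pos a b → X a = X b) ∧
      (∀ a b w, Ch Finset.univ (RA β) pos a b → pos a < pos w → pos w < pos b → X a < X w) ∧
      (∀ a b, Ch Finset.univ R pos a b → Y a = Y b) ∧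
      (∀ a b w, Ch Finset.univ R pos a b → pos a < pos w → pos w < pos b → Y a < Y w) ∧
      ∀ f g w, O f g → pos f < pos w → pos w < pos g →
        (Y w - Y f) * (X g - X f) < (X w - X f) * (Y g - Y f) := by
    obtain ⟨X, Y, I⟩ := coord hC N
    have s : ∀ i j, pos i < pos j → Y (pos i) - X (pos i) < Y (pos j) - X (pos j) :=
      fun i j h => I.s _ _ h (by have := pl j; omega)
    have ae : ∀ a b, Ch Finset.univ (RA β) pos a b → X (pos a) = X (pos b) :=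
      fun a b h => I.ae _ _ ⟨a, b, h, rfl, rfl⟩ (by have := pl b; omega)
    have ai : ∀ a b w, Ch Finset.univ (RA β) pos a b → pos a < pos w → pos w < pos b →
        X (pos a) < X (pos w) :=
      fun a b w h h1 h2 => I.ai _ _ _ ⟨a, b, h, rfl, rfl⟩ h1 h2 (by have := pl w; omega)
    have be : ∀ a b, Ch Finset.univ R pos a b → Y (pos a) = Y (pos b) :=
      fun a b h => I.be _ _ ⟨a, b, h, rfl, rfl⟩ (by have := pl b; omega)
    have bi : ∀ a b w, Ch Finset.univ R pos a b → pos a < pos w → pos w < pos b →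
        Y (pos a) < Y (pos w) :=
      fun a b w h h1 h2 => I.bi _ _ _ ⟨a, b, h, rfl, rfl⟩ h1 h2 (by have := pl w; omega)
    by_cases e : ∃ f g, O f g
    swap
    · exact ⟨fun d => X (pos d), fun d => Y (pos d), s, ae, ai, be, bi,
        fun f g w h => absurd ⟨f, g, h⟩ e⟩
    obtain ⟨f, g, e⟩ := e
    obtain ⟨o1, o2, o3, o4⟩ := hO f g e
    obtain ⟨x, -, hx⟩ := exists_between_sets Set.finite_empty
      (Set.finite_range fun d => X (pos d)) ⟨_, f, rfl⟩ (by simp)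
    have hx' : ∀ d, x < X (pos d) := fun d => hx _ ⟨d, rfl⟩
    obtain ⟨y, -, hy⟩ := exists_between_sets Set.finite_empty
      ((Set.finite_range fun w => ((X (pos w) - X (pos f)) * Y (pos g) -
        Y (pos w) * (x - X (pos f))) / (X (pos w) - x)).insert (Y (pos f)))
      (Set.insert_nonempty _ _) (by simp)
    have hy1 : y < Y (pos f) := hy _ (Or.inl rfl)
    have hy2 : ∀ w, y * (X (pos w) - x) < (X (pos w) - X (pos f)) * Y (pos g) -
        Y (pos w) * (x - X (pos f)) := fun w =>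
      (lt_div_iff₀ (sub_pos.2 (hx' w))).1 (hy _ (Or.inr ⟨w, rfl⟩))
    have ng : ∀ {a b}, pos a < pos b → a ≠ g := fun {a b} h q => by
      have := pl b; rw [q] at h; omega
    have nf : ∀ {a b}, pos a < pos b → b ≠ f := fun {a b} h q => by rw [q] at h; omega
    refine ⟨fun d => if d = g then x else X (pos d), fun d => if d = f then y else Y (pos d),
      fun i j h => ?_, fun a b h => ?_, fun a b w h h1 h2 => ?_, fun a b h => ?_,
      fun a b w h h1 h2 => ?_, fun f' g' w h h1 h2 => ?_⟩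
    · have := s i j h
      have := hx' j
      simp only [if_neg (ng h), if_neg (nf h)]
      split_ifs with q1 q2 q2
      · rw [← q1] at hy1; linarith
      · rw [← q1] at hy1; linarith
      · linarith
      · linarith
    · have l : pos a < pos b := by have := h.2.2.2; omega
      simp only [if_neg (ng l), if_neg (show b ≠ g from fun q => o4 a (q ▸ h))]
      exact ae a b h
    · simp only [if_neg (ng h1), if_neg (ng h2)]; exact ai a b w h h1 h2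
    · have l : pos a < pos b := by have := h.2.2.2; omega
      simp only [if_neg (nf l), if_neg (show a ≠ f from fun q => o3 b (q ▸ h))]
      exact be a b h
    · simp only [if_neg (nf h1), if_neg (show a ≠ f from fun q => o3 b (q ▸ h))]
      exact bi a b w h h1 h2
    · obtain ⟨q1, q2, -⟩ := hO f' g' h
      obtain rfl : f' = f := pi (by omega)
      obtain rfl : g' = g := pi (by omega)
      simp only [if_neg (ng h1), if_neg (ng h2), if_neg (nf h1), if_neg (nf h2), if_true]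
      have := hy2 w
      linarith
  have so : ∀ {u v}, Y u - X u < Y v - X v → pos u < pos v := by
    intro u v h
    rcases lt_trichotomy (pos u) (pos v) with e | e | e
    · exact e
    · rw [pi e] at h; exact absurd h (lt_irrefl _)
    · exact absurd (s _ _ e) (not_lt.2 h.le)
  have ty : ∀ u v w, H.Adj u v → pos (φ u) < pos w → pos w < pos (φ v) →
      Ch Finset.univ (RA β) pos (φ u) (φ v) ∨ Ch Finset.univ R pos (φ u) (φ v) ∨ O (φ u) (φ v) :=
    fun u v w h h1 h2 => (hH u v h (h1.trans h2)).imp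
      (fun r => ⟨Finset.mem_univ _, Finset.mem_univ _, r, by omega⟩)
      (Or.imp_left fun r => ⟨Finset.mem_univ _, Finset.mem_univ _, r, by omega⟩)
  refine ⟨fun v => (Y (φ v) - X (φ v), Y (φ v) + X (φ v)), geo H _ (fun u v e => ?_)
    (fun u v w h h1 h2 => ?_) fun a b c d h h' h1 h2 h3 => ?_⟩
  · rcases lt_trichotomy (pos (φ u)) (pos (φ v)) with q | q | q
    · exact absurd e (s _ _ q).ne
    · exact hφ (pi q)
    · exact absurd e (s _ _ q).ne'
  · simp only [ht] at h1 h2 ⊢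
    have l1 := so h1
    have l2 := so h2
    have l3 := sub_pos.2 (h1.trans h2)
    rcases ty u v _ h l1 l2 with c | c | c
    · have e1 := ae _ _ c
      have e2 := mul_pos l3 (sub_pos.2 (ai _ _ _ c l1 l2))
      rw [← e1] at *; nlinarith
    · have e1 := be _ _ c
      have e2 := mul_pos l3 (sub_pos.2 (bi _ _ _ c l1 l2))
      rw [← e1] at *; nlinarith
    · have := oo _ _ _ c l1 l2
      nlinarith
  · simp only at h1 h2 h3 ⊢
    have l1 := so h1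
    have l2 := so h2
    have l3 := so h3
    rcases ty a b _ h l1 l2 with x | x | x <;> rcases ty c d _ h' l2 l3 with y | y | y
    · have := L.aa _ _ _ _ x y l1 l2; omega
    · rw [ae _ _ x, be _ _ y]; constructor <;> ring
    · have := (hO _ _ y).1; omega
    · have := L.ab _ _ _ _ y x l1.le l2; omega
    · have := L.bb _ _ _ _ x y l1 l2; omega
    · have := (hO _ _ y).1; omega
    all_goals have := (hO _ _ x).2.1; have := pl (φ d); omega

end Pool.Agent.Lib.MP_b9d600_co
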