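import Pool.Agent.Lib.MP_b9d600_co.Blk

/-! The recursive construction of a layout. -/

namespace Pool.Agent.Lib.MP_b9d600_co

open Equiv Equiv.Perm Finset Relation Pool.Agent.Lib.MP_abd955_pr

set_option linter.unusedSectionVars false

variable {D : Type} [DecidableEq D] [Fintype D]
  {σ β γ : Perm D} {q z x : D} {cl : Prop} {W K : Finset D} {pos pK : D → ℕ} {N NK : ℕ}

lemma Cut.fix (C : Cut σ β γ x) (y : D) (h : β y = y) : γ y = y := by
  by_cases h1 : y = x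
  · rw [h1, C.fx]
  by_cases h2 : y = β x
  · rw [h2, C.fp]
  rw [C.eq y h1 h2, h]

lemma Cut.np (C : Cut σ β γ x) (hσ : ∀ d, σ d ≠ d) (np : ∀ d, β d ≠ σ d) (d : D) : γ d ≠ σ d := by
  by_cases h1 : d = x
  · rw [h1, C.fx]; exact (hσ x).symm
  by_cases h2 : d = β x
  · rw [h2, C.fp]; exact (hσ _).symm
  rw [C.eq d h1 h2]; exact np d

lemma Cut.hA (C : Cut σ β γ x) (inv : ∀ d, β (β d) = d) {S : Finset D} (h : x ∉ S ∨ β x ∉ S) :
    ∀ a ∈ S, ∀ b ∈ S, a ≠ b → RA β a b → RA γ a b := by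
  rintro a ha b hb - (rfl : β a = b)
  refine C.eq a ?_ ?_ <;> rintro rfl
  · exact h.elim (· ha) (· hb)
  · rw [inv] at hb; exact h.elim (· hb) (· ha)

lemma Hyp.prev (H : Hyp σ γ q x cl W) (hx : γ x = x) (hq : x ≠ q) :
    Hyp σ γ q (σ⁻¹ x) False (W.erase x) := by
  have e : σ (σ⁻¹ x) = x := by simp
  refine ⟨H.pl, H.inv, H.np, H.fq, H.cyc.trans ?_, fun y h => ?_, False.elim, fun y => ?_⟩
  · have := (sc_step σ (σ⁻¹ x)).symm
    rwa [e] at this
  · rcases (rc_prev e hq y).1 h with rfl | h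
    exacts [hx, H.fE y h]
  · rw [mem_erase, H.mem, rc_prev e hq]; tauto

lemma hyp_new (pl : Pl σ γ) (inv : ∀ d, γ (γ d) = d) (np : ∀ d, γ d ≠ σ d) (hz : γ z = z)
    (cl : Prop) (hK : ∀ y, y ∈ K ↔ conn γ σ z y) : Hyp σ γ z (σ⁻¹ z) cl K := by
  have e : σ (σ⁻¹ z) = z := by simp
  have h0 : ∀ y, ¬Rc σ z (σ⁻¹ z) y := fun y h => h.head.1 e
  refine ⟨pl, inv, np, hz, ?_, fun y h => absurd h (h0 y), fun _ => e, fun y =>
    (hK y).trans (and_iff_left (h0 y)).symm⟩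
  have := (sc_step σ (σ⁻¹ z)).symm
  rwa [e] at this

lemma Hyp.nd (H : Hyp σ β q x cl W) (hq : x ≠ q) {d : D} (h : RB σ cl x x d) :
    β x ≠ q ∧ β x ≠ d := by
  refine ⟨fun e => hq (β.injective (e.trans H.fq.symm)), ?_⟩
  rintro rfl
  rcases h with h | h
  · exact H.np x h.1.symm
  · exact H.np (β x) ((H.inv x).trans h.1.symm)

lemma step_nb (hσ : ∀ d, σ d ≠ d ∧ σ (σ d) ≠ d ∧ σ (σ (σ d)) ≠ d) (H : Hyp σ β q x cl W)
    (hq : x ≠ q) (H' : Hyp σ γ q (σ⁻¹ x) False (W.erase x))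
    (O : Out σ γ q (σ⁻¹ x) False (W.erase x) pos N)
    (hA : ∀ a ∈ W.erase x, ∀ b ∈ W.erase x, a ≠ b → RA β a b → RA γ a b)
    (hf : ∀ y, β y = y → γ y = y) (hp : γ (β x) = β x)
    (hs : ∀ y, (σ * β).SameCycle q y → (σ * γ).SameCycle q y)
    (hr : ∀ y y', (σ * β).SameCycle q y → Rc (σ * β) q y y' → y' ∈ W → Rc (σ * γ) q y y') :
    ∃ pos N, Out σ β q x cl W pos N := by
  have X := O.nxt hσ H' hq H.cl
  refine Out.cons H (O.toBlk.transfer hA X.rel hf (fun y _ => hs y)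
    (fun y _ y' hy' _ _ s r => hr y y' s r (mem_of_mem_erase hy')) fun _ => rfl) X.nx
    (by rw [← insert_eq, insert_erase H.xW]) hq O.last X.one (fun h => ⟨?_, fun y hy e s => ?_⟩)
    (fun d hd h h0 => ?_) X.uB
  · exact (O.fr _ h hp (hs _ H.sp)).mono Subset.rfl hA
  · refine O.ord y hy _ h (hf y e) hp (hs y s) (hr _ _ s
      (H.top (mem_of_mem_erase hy) ?_ s) (mem_of_mem_erase h))
    rintro rfl
    exact (mem_erase.1 h).1 (e.symm.trans (H.inv x))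
  · obtain ⟨h1, h2, h3⟩ := X.cB d hd h
    exact ⟨h1.mono Subset.rfl hA, h2, fun h' => h3 h0 _ h' (H.nd hq h).1 (H.nd hq h).2⟩

/-- the data of a bridge -/
structure Br (σ β γ : Perm D) (q x : D) (cl : Prop) (W K : Finset D) : Prop where
  H : Hyp σ β q x cl W
  C : Cut σ β γ x
  ne : β x ≠ x
  nc : ¬conn γ σ x (β x)
  join : IsJoin (sc (σ * γ)) (sc (σ * β)) (σ x) (σ (β x))
  mem : ∀ y, y ∈ K ↔ conn γ σ (β x) y

lemma Br.nK (B : Br σ β γ q x cl W K) {y : D} (h : conn γ σ q y) : y ∉ K := fun h' =>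
  B.nc ((conn γ σ).trans ((conn γ σ).trans ((conn γ σ).symm (conn_of_scf B.H.cyc)) h)
    ((conn γ σ).symm ((B.mem y).1 h')))

lemma Br.inK (B : Br σ β γ q x cl W K) : β x ∈ K := (B.mem _).2 ((conn γ σ).refl _)

lemma Br.xK (B : Br σ β γ q x cl W K) : x ∉ K := B.nK (conn_of_scf B.H.cyc)

lemma Br.sK (B : Br σ β γ q x cl W K) (a : D) : a ∈ K ↔ σ a ∈ K :=
  mem_iff_of_maps (fun a h => (B.mem _).2 ((conn γ σ).trans ((B.mem a).1 h) (conn_f γ σ a))) a

lemma Br.gK (B : Br σ β γ q x cl W K) (a : D) (h : a ∈ K) : γ a ∈ K :=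
  (B.mem _).2 ((conn γ σ).trans ((B.mem a).1 h) (conn_a γ σ a))

lemma Br.eq (B : Br σ β γ q x cl W K) {a : D} (h : a ∈ K) (h' : a ≠ β x) : γ a = β a :=
  B.C.eq a (fun e => B.xK (e ▸ h)) h'

lemma Br.cn (B : Br σ β γ q x cl W K) (y : D) : conn β σ q y ↔ conn γ σ q y ∨ y ∈ K := by
  rw [B.C.join, B.mem]
  exact or_congr_right ⟨fun h => h.elim (·.2) fun h => absurd B.inK (B.nK h.1),
    fun h => Or.inl ⟨conn_of_scf B.H.cyc, h⟩⟩

lemma Br.sub (B : Br σ β γ q x cl W K) : K ⊆ W := fun y h =>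
  (B.H.mem y).2 ⟨(B.cn y).2 (Or.inr h), fun r => B.nK (conn_of_scf (B.H.cyc.trans r.sc)) h⟩

lemma Br.hyp (B : Br σ β γ q x cl W K) (hσ : ∀ d, σ d ≠ d) : Hyp σ γ q x cl (W \ K) := by
  refine ⟨B.C.pl, B.C.inv, B.C.np hσ B.H.np, B.C.fix q B.H.fq, B.H.cyc,
    fun y h => B.C.fix y (B.H.fE y h), B.H.cl, fun y => ?_⟩
  rw [mem_sdiff, B.H.mem, B.cn]
  have := B.nK (y := y)
  tauto

lemma Br.bad (B : Br σ β γ q x cl W K) (a : D) (h : a ∈ K ∨ Rc σ q x a) (h' : (σ * β) a ≠ q) :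
    (σ * β) a ∈ K ∨ Rc σ q x ((σ * β) a) := by
  rcases h with h | h
  · by_cases e : a = β x
    · subst e; exact Or.inr (B.H.Ep h')
    · rw [mul_apply, ← B.eq h e]; exact Or.inl ((B.sK _).1 (B.gK a h))
  · exact Or.inr (B.H.Ecl a h h')

lemma Br.cO (B : Br σ β γ q x cl W K) {y y' : D} (hy : y ∈ K) (hy' : y' ∈ W \ K) :
    ¬Rc (σ * β) q y y' := fun r =>
  (r.transfer (φ' := σ) (z := y') (fun a => a ∈ K ∨ Rc σ q x a) _
    (fun a h h' => Or.inr (B.bad a h h')) B.bad (Or.inl hy) fun h =>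
      h.elim (mem_sdiff.1 hy').2 ((B.H.mem _).1 (mem_sdiff.1 hy').1).2).ne rfl

lemma Br.blkT (B : Br σ β γ q x cl W K) {R R' : D → D → Prop} {S : Finset D} (hS : S ⊆ W \ K)
    (T : Blk σ γ q R' S pos N) (hR : ∀ a ∈ S, ∀ b ∈ S, a ≠ b → R a b → R' a b) :
    Blk σ β q R S pos N := by
  refine T.transfer (B.C.hA B.H.inv (Or.inr fun h => (mem_sdiff.1 (hS h)).2 B.inK)) hR B.C.fix
    (fun y hy s => ?_) (fun y _ y' hy' _ _ _ r => ?_) fun _ => rfl
  · rcases (B.join q y).1 s with h | h | h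
    · exact h
    · exact absurd ((B.mem y).2 ((conn γ σ).trans (conn_f γ σ _) (conn_of_sc h.2)))
        (mem_sdiff.1 (hS hy)).2
    · exact absurd ((B.sK _).1 B.inK) (B.nK (conn_of_sc h.1))
  · refine r.transfer (fun _ => True) _ (fun a _ h => ?_) B.bad trivial fun h =>
      h.elim (mem_sdiff.1 (hS hy')).2 ((B.H.mem _).1 (mem_sdiff.1 (hS hy')).1).2
    by_cases h1 : a = x
    · subst h1; exact Or.inr (Or.inl ((B.sK _).1 B.inK))
    by_cases h2 : a = β x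
    · subst h2; exact Or.inr (Or.inr (B.H.Ep h))
    exact Or.inl ⟨by rw [mul_apply, mul_apply, B.C.eq a h1 h2], h, trivial⟩

lemma Br.sc (B : Br σ β γ q x cl W K) {y : D} (hy : y ∈ K) (s : (σ * β).SameCycle q y) :
    (σ * γ).SameCycle (β x) y := by
  rcases (B.join q y).1 s with h | h | h
  · exact absurd hy (B.nK (conn_of_sc h))
  · have := sc_step (σ * γ) (β x)
    rw [mul_apply, B.C.fp] at this
    exact this.trans h.2
  · exact absurd ((B.sK _).1 B.inK) (B.nK (conn_of_sc h.1))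

lemma Br.blkK (B : Br σ β γ q x cl W K) (T : Blk σ γ z (RB σ True (σ⁻¹ z)) K pK NK)
    (hz : (σ * γ).SameCycle (β x) z)
    (hr : ∀ y ∈ K, ∀ y' ∈ K, β y = y → β y' = y' → Rc (σ * β) q y y' → Rc (σ * γ) z y y') :
    Blk σ β q (RB σ cl x) K pK NK :=
  T.transfer (B.C.hA B.H.inv (Or.inl B.xK))
    (fun _ _ _ _ _ h => h.imp (fun h => ⟨h.1, Or.inl trivial⟩) fun h => ⟨h.1, Or.inl trivial⟩)
    B.C.fix (fun _ hy s => hz.symm.trans (B.sc hy s))
    (fun y hy y' hy' e e' _ r => hr y hy y' hy' e e' r)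
    fun h => absurd h (B.nK (conn_f γ σ q))

lemma Br.noR (B : Br σ β γ q x cl W K) {c d : D} (hc : c ∈ K) (hd : d ∉ K) :
    ¬RB σ cl x c d ∧ ¬RB σ cl x d c := by
  constructor <;> rintro (⟨rfl, -⟩ | ⟨rfl, -⟩)
  exacts [hd ((B.sK _).1 hc), hd ((B.sK _).2 hc), hd ((B.sK _).2 hc), hd ((B.sK _).1 hc)]

lemma Br.crossA (B : Br σ β γ q x cl W K) {a : D} (ha : a ∈ K) (h : β a ∉ K) :
    a = β x ∧ β a = x := by
  have : a = β x := by
    by_contra e
    exact h (B.eq ha e ▸ B.gK a ha)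
  exact ⟨this, by rw [this, B.H.inv]⟩

lemma step_b1 (B : Br σ β γ q x cl W K) (hq : x ≠ q) (hc : x = σ q ∨ cl)
    (OK : Out σ γ (β x) (σ⁻¹ (β x)) True K pK NK) (O : Out σ γ q x cl (W \ K) pos N) :
    ∃ pos N, Out σ β q x cl W pos N := by
  have hd : Disjoint K (W \ K) := disjoint_sdiff
  have B' := (B.blkK OK.toBlk (SameCycle.refl _ _) fun y hy y' hy' _ e' r => by
    refine r.transfer (· ∈ K) (fun a => a = β x ∨ Rc σ q x a) (fun a ha h => ?_)
      (fun a ha h => Or.inr ?_) hy ?_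
    · by_cases h2 : a = β x
      · subst h2; exact Or.inr (Or.inr (B.H.Ep h))
      by_cases h3 : (σ * β) a = β x
      · exact Or.inr (Or.inl h3)
      have h4 : (σ * γ) a = (σ * β) a := by rw [mul_apply, mul_apply, B.eq ha h2]
      exact Or.inl ⟨h4, h3, h4 ▸ (B.sK _).1 (B.gK a ha)⟩
    · rcases ha with rfl | ha
      exacts [B.H.Ep h, B.H.Ecl a ha h]
    · rintro (rfl | h)
      · exact B.ne (e'.symm.trans (B.H.inv x))
      · exact ((B.H.mem _).1 (B.sub hy')).2 h).append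
    (B.blkT Subset.rfl O.toBlk fun _ _ _ _ _ h => h) hd
    (fun a ha h => by
      obtain ⟨rfl, e⟩ := B.crossA ha (mem_sdiff.1 h).2
      exact ⟨OK.last, fun h => absurd (by rw [e]; exact O.top (Or.inl B.C.fx)) h⟩)
    (fun c hc d hd h => absurd h (B.noR hc (mem_sdiff.1 hd).2).1)
    (fun c hc d hd _ _ h => absurd h (B.noR hc (mem_sdiff.1 hd).2).1)
    fun y hy y' hy' _ _ => B.cO hy hy'
  rw [union_sdiff_of_subset B.sub] at B'
  refine ⟨_, _, B', ?_, fun _ => ?_, ?_⟩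
  · rw [cat_r hd (mem_sdiff.2 ⟨B.H.qW, B.nK ((conn γ σ).refl q)⟩)]; have := O.last; omega
  · rw [cat_r hd (mem_sdiff.2 ⟨B.H.sW hq, B.nK (conn_f γ σ q)⟩)]; have := O.one hq; omega
  · rintro (h | h)
    · exact absurd h B.ne
    · tauto

lemma exists_first (φ : Perm D) (P : D → Prop) {p : D} (hp : P p) :
    ∃ z, P z ∧ φ.SameCycle p z ∧ ∀ a, Rc φ z p a → ¬P a := by
  classical
  have hex : ∃ k, 0 < k ∧ P ((φ ^ k) p) :=
    ⟨orderOf φ, orderOf_pos φ, by simpa [pow_orderOf_eq_one] using hp⟩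
  have h1 := Nat.find_spec hex
  refine ⟨_, h1.2, ⟨Nat.find hex, by simp⟩, fun a r => ?_⟩
  have : ∃ i, 0 < i ∧ i < Nat.find hex ∧ a = (φ ^ i) p := by
    induction r with
    | single h =>
      refine ⟨1, one_pos, lt_of_le_of_ne h1.1 fun e => h.2 ?_, by simpa using h.1⟩
      rw [← e]; simpa using h.1
    | tail _ h ih =>
      obtain ⟨i, i0, i1, rfl⟩ := ih
      rw [← mul_apply, ← pow_succ'] at h
      exact ⟨i + 1, by omega, lt_of_le_of_ne i1 fun e => h.2 (e ▸ h.1), h.1⟩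
  obtain ⟨i, i0, i1, rfl⟩ := this
  exact fun h => Nat.find_min hex i1 ⟨i0, h⟩

lemma step_b2 (hσ : ∀ d, σ d ≠ d ∧ σ (σ d) ≠ d ∧ σ (σ (σ d)) ≠ d) (B : Br σ β γ q x cl W K)
    (hq : x ≠ q) (hc : x ≠ σ q ∧ ¬cl) (hz : (σ * γ).SameCycle (β x) z)
    (hz' : ∀ a, Rc (σ * γ) z (β x) a → γ a ≠ a) (OK : Out σ γ z (σ⁻¹ z) True K pK NK)
    (O : Out σ γ q (σ⁻¹ x) False ((W \ K).erase x) pos N) : ∃ pos N, Out σ β q x cl W pos N := by
  have H' := (B.hyp fun d => (hσ d).1).prev B.C.fx hq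
  have X := O.nxt hσ H' hq B.H.cl
  set S := (W \ K).erase x with hS
  have sub : S ⊆ W \ K := erase_subset _ _
  have nK : ∀ {y}, y ∈ S → y ∉ K := fun h => (mem_sdiff.1 (sub h)).2
  have hd : Disjoint K S := disjoint_right.2 fun _ => nK
  have hr : ∀ y ∈ K, ∀ y' ∈ K, β y = y → Rc (σ * β) q y y' → Rc (σ * γ) z y y' := by
    intro y hy y' hy' e r
    refine r.transfer (fun a => a ∈ K ∧ ¬Rc (σ * γ) z (β x) a) (Rc σ q x) (fun a ha h => ?_)
      B.H.Ecl ⟨hy, fun h => hz' y h (B.C.fix y e)⟩ ((B.H.mem _).1 (B.sub hy')).2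
    by_cases h2 : a = β x
    · subst h2; exact Or.inr (B.H.Ep h)
    have h4 : (σ * γ) a = (σ * β) a := by rw [mul_apply, mul_apply, B.eq ha.1 h2]
    rw [← h4]
    refine Or.inl ⟨rfl, fun e => ?_, (B.sK _).1 (B.gK a ha.1), fun r => r.back.elim h2 ha.2⟩
    rcases rc_total (show (σ * γ).SameCycle z a from e ▸ (sc_step _ a).symm) hz.symm with r | r | r
    exacts [h2 r, r.head.1 e, ha.2 r]
  have noA : ∀ a ∈ K, ∀ b ∈ S, ¬RA β a b := by
    rintro a ha b hb (rfl : β a = b)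
    exact X.nx ((B.crossA ha (nK hb)).2 ▸ hb)
  have BK := B.blkK OK.toBlk hz fun y hy y' hy' e _ => hr y hy y' hy' e
  have B' := BK.append (B.blkT sub O.toBlk X.rel) hd (fun a ha h => absurd rfl (noA a ha _ h))
    (fun c hc d hd h => absurd h (B.noR hc (nK hd)).1)
    (fun c hc d hd _ _ h => absurd h (B.noR hc (nK hd)).1) fun y hy y' hy' _ _ => B.cO hy (sub hy')
  have lp := BK.lay.lt _ B.inK
  have mS : ∀ d ∈ K ∪ S, RB σ cl x x d → d ∈ S := fun d hd h =>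
    (mem_union.1 hd).resolve_left fun c => (B.noR c B.xK).2 h
  have uq : ∀ d, RB σ cl x x d → σ d = x := by
    rintro d (h | h)
    · exact absurd (h.2.resolve_right (by simp)) hc.2
    · exact h.1
  refine Out.cons B.H B' (by simp [hS, B.xK]) ?_ hq ?_ ?_ (fun _ => ⟨?_, fun y hy e s => ?_⟩)
    (fun d hd' h _ => ?_) fun d _ d' _ h h' _ _ => σ.injective ((uq d h).trans (uq d' h').symm)
  · rw [union_left_comm, ← insert_eq, insert_erase (B.hyp fun d => (hσ d).1).xW,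
      union_sdiff_of_subset B.sub]
  · rw [cat_r hd H'.qW]; have := O.last; omega
  · rcases X.one with h | h
    · refine Or.inl ⟨?_, hc.1⟩
      rw [cat_r hd (H'.sW fun e => hc.1 (by rw [← e]; simp))]; omega
    · exact absurd h.1 hc.1
  · exact fr_l hd BK.lay.lt (fun a ha b hb h => absurd h (noA a ha b hb)) B.inK
      ((OK.fr _ B.inK B.C.fp hz.symm).mono Subset.rfl (B.C.hA B.H.inv (Or.inl B.xK)))
  · rw [cat_l B.inK]
    rcases mem_union.1 hy with hy | hy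
    · rw [cat_l hy]
      refine OK.ord y hy _ B.inK (B.C.fix y e) B.C.fp (hz.symm.trans (B.sc hy s))
        (hr y hy _ B.inK e (B.H.top (B.sub hy) ?_ s))
      rintro rfl
      exact B.ne (e.symm.trans (B.H.inv x))
    · rw [cat_r hd hy]; omega
  · have hd2 := mS d hd' h
    obtain ⟨h1, h2, -⟩ := X.cB d hd2 h
    refine ⟨fr_r hd BK.lay.lt (fun a ha b hb h => absurd h (noA a ha b hb)) hd2
      (h1.mono Subset.rfl (B.C.hA B.H.inv (Or.inl X.nx))) fun a ha b hb h => absurd h (noA a ha b hb),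
      fr_r hd BK.lay.lt (fun a ha b hb h => absurd h (B.noR ha (nK hb)).1) hd2 h2
        fun a ha b hb h => absurd h (B.noR ha (nK hb)).1, fun _ => ?_⟩
    rw [cat_l B.inK, cat_r hd hd2]; omega

theorem exists_outp (hσ : ∀ d, σ d ≠ d ∧ σ (σ d) ≠ d ∧ σ (σ (σ d)) ≠ d) (n : ℕ) :
    ∀ (β : Perm D) (q x : D) (cl : Prop) (W : Finset D), W.card = n → Hyp σ β q x cl W →
      ∃ pos N, Out σ β q x cl W pos N := by
  induction n using Nat.strong_induction_on with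
  | _ n ih =>
  intro β q x cl W hn H
  have hσ1 : ∀ d, σ d ≠ d := fun d => (hσ d).1
  by_cases hq : x = q
  · subst hq
    have fx : ∀ z, σ.SameCycle x z → β z = z := fun z h =>
      (rc_base h).elim (fun e => e ▸ H.fq) (H.fE z)
    obtain rfl : W = {x} := by
      refine eq_singleton_iff_unique_mem.2 ⟨H.qW, fun y hy => ?_⟩
      obtain ⟨h1, h2⟩ := (H.mem y).1 hy
      refine (rc_base ((conn_pred (σ.SameCycle x) (fun z => ⟨fun h => by rwa [fx z h], fun h => ?_⟩)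
        (fun z => sameCycle_apply_right.symm) h1).1 (SameCycle.refl _ _))).resolve_right h2
      rwa [β.injective (fx _ h)] at h
    exact ⟨_, _, Blk.single σ β x _ x, rfl, fun h => absurd rfl h, fun _ => rfl⟩
  have lt : ∀ {S : Finset D} {y}, S ⊆ W → y ∈ W → y ∉ S → S.card < n := fun h h1 h2 =>
    hn ▸ card_lt_card ⟨h, fun c => h2 (c h1)⟩
  by_cases hx : β x = x
  · obtain ⟨p, N, O⟩ := ih _ (lt (erase_subset x W) H.xW (by simp)) _ _ _ _ _ rfl (H.prev hx hq)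
    exact step_nb hσ H hq (H.prev hx hq) O (fun _ _ _ _ _ h => h) (fun _ h => h) (by rw [hx, hx])
      (fun _ h => h) fun _ _ _ h _ => h
  obtain ⟨γ, C⟩ := exists_cut H.inv H.pl hx
  by_cases hb : (σ * β).SameCycle x (β x)
  swap
  · obtain ⟨c1, c2⟩ := C.nb hb
    have H1 : Hyp σ γ q x cl W := by
      refine ⟨C.pl, C.inv, C.np hσ1 H.np, C.fix q H.fq, H.cyc, fun y h => C.fix y (H.fE y h),
        H.cl, fun y => ?_⟩
      rw [H.mem, C.join]
      refine and_congr_left' ⟨?_, Or.inl⟩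
      rintro (h | h | h)
      · exact h
      · exact (conn γ σ).trans ((conn γ σ).trans h.1 c1) h.2
      · exact (conn γ σ).trans (conn_of_scf H.cyc) h.2
    obtain ⟨p, N, O⟩ := ih _ (lt (erase_subset x W) H.xW (by simp)) _ _ _ _ _ rfl
      (H1.prev C.fx hq)
    refine step_nb hσ H hq (H1.prev C.fx hq) O (C.hA H.inv (Or.inl (by simp))) C.fix C.fp
      (c2 q) fun y y' s r hy' => ?_
    refine r.transfer ((σ * β).SameCycle q) (Rc σ q x) (fun a ha h => ?_) H.Ecl s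
      ((H.mem _).1 hy').2
    by_cases h2 : a = β x
    · subst h2; exact Or.inr (H.Ep h)
    have h1 : a ≠ x := by
      rintro rfl
      exact hb (ha.symm.trans H.sp)
    exact Or.inl ⟨by rw [mul_apply, mul_apply, C.eq a h1 h2], h, ha.trans (sc_step _ _)⟩
  classical
  have B : Br σ β γ q x cl W (univ.filter (conn γ σ (β x))) :=
    ⟨H, C, hx, (C.br hb).1, (C.br hb).2, by simp⟩
  generalize univ.filter (conn γ σ (β x)) = K at B
  have H1 := B.hyp hσ1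
  by_cases hc : x = σ q ∨ cl
  · obtain ⟨p, N, O⟩ := ih _ (lt sdiff_subset (B.sub B.inK) (by simp [B.inK])) _ _ _ _ _ rfl H1
    obtain ⟨pK, NK, OK⟩ := ih _ (lt B.sub H.xW B.xK) _ _ _ _ _ rfl
      (hyp_new C.pl C.inv H1.np C.fp True B.mem)
    exact step_b1 B hq hc OK O
  · obtain ⟨z, z1, z2, z3⟩ := exists_first (σ * γ) (fun a => γ a = a) C.fp
    obtain ⟨p, N, O⟩ := ih _ (lt ((erase_subset x _).trans sdiff_subset) H.xW (by simp))
      _ _ _ _ _ rfl (H1.prev C.fx hq)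
    obtain ⟨pK, NK, OK⟩ := ih _ (lt B.sub H.xW B.xK) _ _ _ _ _ rfl
      (hyp_new C.pl C.inv H1.np z1 True fun y => (B.mem y).trans
        ⟨(conn γ σ).trans ((conn γ σ).symm (conn_of_sc z2)), (conn γ σ).trans (conn_of_sc z2)⟩)
    exact step_b2 hσ B hq (not_or.1 hc) z2 z3 OK O

end Pool.Agent.Lib.MP_b9d600_co
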